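import Pool.Agent.H96.EXT.Ball
import Pool.Agent.H5.M3F.Wgt
import Pool.Agent.H86.EXT.Def
import Pool.Agent.H62.GEN.JatB
import Pool.Agent.H45.EXA.ExvB

/-!
# The number of the additional coordinate, from below

`lb_ex`: closed labels of the additional coordinate. `num_tgt`: a label of the target at the point
`(w, w)`, with the precision `P₀`, visible up to `sg`, gives the precision `P₀ + s` for the
additional coordinate at the larger windows, if `sg ≤ P₀ + s`.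
-/

set_option autoImplicit false

namespace Pool.EXT96

open Finset Real MvPolynomial
open Pool.Agent.H49.Ent Pool.Agent.H32.Dense Pool.STK Pool.KA Pool.KSAT Pool.K2S Pool.PB Pool.GEN
open Pool.S6C Pool.M3F
open Pool.STAT.CLO (LV Inj)
open Pool.FLF (Fam.sub)
open Pool.EXTC (exC exSt)

variable {m J : ℕ}

theorem exF_eq (F : Fam m J) (k : Fin m) (s : ℕ) :
    Pool.EXTC.exF k s F = Pool.M3F.exF F k s := rfl

/-- The derivatives of the renamed polynomials. -/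
theorem pd_ren_last (G : MvPolynomial (Option (Fin m)) ℝ) :
    pderiv (some (Fin.last m)) (rename (vx m) G) = 0 := by
  classical
  refine pderiv_eq_zero_of_notMem_vars fun h => ?_
  have h1 := vars_rename (vx m) G h
  rw [Finset.mem_image] at h1
  obtain ⟨o, -, ho⟩ := h1
  rcases o with _ | i
  · exact Option.some_ne_none _ ho.symm
  · exact (Fin.castSucc_lt_last i).ne (Option.some.inj ho)

/-- **Closed labels of the additional coordinate.** -/
theorem lb_ex {F : Fam m J} {k : Fin m} {s : ℕ} {I : Finset (Fin m)} {D w E P : ℕ} {Y Y' : ℝ}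
    {B : F.Ω → Prop} (z : PtT F → LV) (z' : LnT F → LV)
    (G : LV → MvPolynomial (Option (Fin m)) ℝ) (hdeg : ∀ v, (G v).totalDegree ≤ D)
    (hdep : ∀ v, ∀ b b' : Option (Fin m) → ℝ, b none = b' none →
      (∀ k ∈ I, b (some k) = b' (some k)) → eval b (G v) = eval b' (G v))
    (hcls : ∀ ω, B ω → z (ptr F J ω) = z' (slam F w ω))
    (hpos : ∀ ω, B ω → |F.x ω k - eval (bt F ω) (G (z' (slam F w ω)))| ≤ Y)
    (hvel : ∀ ω, B ω → |F.d ω k -
      ∑ o, bd F ω o * eval (bt F ω) (pderiv o (G (z' (slam F w ω))))| ≤ Y * 2 ^ w)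
    (hlip : ∀ ω, B ω → ∀ b : Option (Fin m) → ℝ, (∀ o, |b o - bt F ω o| ≤ 1 / 2 ^ J) → ∀ o,
      |eval b (pderiv o (G (z' (slam F w ω))))| ≤ Y')
    (hY : Y / 2 ^ s ≤ 1 / 2 ^ P) (hY' : Y' / 2 ^ s ≤ 2 ^ E) :
    Lb (Pool.M3F.exF F k s) (I.map Fin.castSuccEmb) (Fin.last m) D E J w J P B := by
  classical
  have h2s : (0 : ℝ) < 2 ^ s := by positivity
  have hx : ∀ ω : F.Ω, (Pool.M3F.exF F k s).x ω (Fin.last m) = F.x ω k / 2 ^ s := fun ω => by
    rw [exF_x, sn_last]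
  have hd : ∀ ω : F.Ω, (Pool.M3F.exF F k s).d ω (Fin.last m) = F.d ω k / 2 ^ s :=
    fun ω => sn_last _ _
  have hev : ∀ (v : LV) (b : Option (Fin (m + 1)) → ℝ),
      eval b (C (1 / 2 ^ s) * rename (vx m) (G v)) = eval (b ∘ vx m) (G v) / 2 ^ s := by
    intro v b
    rw [map_mul, eval_C, eval_rename]
    ring
  have hpv : ∀ (v : LV) (o : Option (Fin m)) (b : Option (Fin (m + 1)) → ℝ),
      eval b (pderiv (vx m o) (C (1 / 2 ^ s) * rename (vx m) (G v))) =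
        eval (b ∘ vx m) (pderiv o (G v)) / 2 ^ s := by
    intro v o b
    rw [pderiv_C_mul, map_mul, eval_C, pderiv_rename (vx_inj m), eval_rename]
    ring
  have hpl : ∀ (v : LV) (b : Option (Fin (m + 1)) → ℝ),
      eval b (pderiv (some (Fin.last m)) (C (1 / 2 ^ s) * rename (vx m) (G v))) = 0 := by
    intro v b
    rw [pderiv_C_mul, pd_ren_last, mul_zero, map_zero]
  have hb : ∀ ω : F.Ω, bt (Pool.M3F.exF F k s) ω ∘ vx m = bt F ω := fun ω => bt_vx F k s ω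
  have hrP : ∀ ω : F.Ω, rP F k s (ptr (Pool.M3F.exF F k s) J ω) = ptr F J ω := fun ω => by
    rw [exF_ptr, rP_eP]
  have hrL : ∀ ω : F.Ω, rL F k s (slam (Pool.M3F.exF F k s) w ω) = slam F w ω := fun ω => by
    rw [exF_slam, rL_eL]
  refine ⟨LV, fun ξ => z (rP F k s ξ), fun t => z' (rL F k s t),
    fun v => C (1 / 2 ^ s) * rename (vx m) (G v), ?_, ?_, ?_, ?_, ?_, ?_⟩
  · intro v
    refine (totalDegree_mul _ _).trans ?_
    rw [totalDegree_C, zero_add]
    exact (totalDegree_rename_le _ _).trans (hdeg v)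
  · intro v b b' h0 hI
    rw [hev, hev, hdep v (b ∘ vx m) (b' ∘ vx m) h0 fun i hi =>
      hI (Fin.castSucc i) (Finset.mem_map.2 ⟨i, hi, rfl⟩)]
  · intro (ω : F.Ω) (hω : B ω)
    show z (rP F k s (ptr (Pool.M3F.exF F k s) J ω)) =
      z' (rL F k s (slam (Pool.M3F.exF F k s) w ω))
    rw [hrP, hrL]
    exact hcls ω hω
  · intro (ω : F.Ω) (hω : B ω)
    show |(Pool.M3F.exF F k s).x ω (Fin.last m) - eval (bt (Pool.M3F.exF F k s) ω)
      (C (1 / 2 ^ s) * rename (vx m) (G (z' (rL F k s (slam (Pool.M3F.exF F k s) w ω)))))| ≤ _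
    rw [hx, hrL, hev, hb, ← sub_div, abs_div, abs_of_pos h2s]
    exact (div_le_div_of_nonneg_right (hpos ω hω) h2s.le).trans hY
  · intro (ω : F.Ω) (hω : B ω)
    show |(Pool.M3F.exF F k s).d ω (Fin.last m) - ∑ o, bd (Pool.M3F.exF F k s) ω o *
      eval (bt (Pool.M3F.exF F k s) ω) (pderiv o (C (1 / 2 ^ s) * rename (vx m)
        (G (z' (rL F k s (slam (Pool.M3F.exF F k s) w ω))))))| ≤ _
    rw [hd, hrL]
    have h1 : ∑ o, bd (Pool.M3F.exF F k s) ω o * eval (bt (Pool.M3F.exF F k s) ω)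
        (pderiv o (C (1 / 2 ^ s) * rename (vx m) (G (z' (slam F w ω))))) =
        (∑ o, bd F ω o * eval (bt F ω) (pderiv o (G (z' (slam F w ω))))) / 2 ^ s := by
      rw [Fintype.sum_option, Fin.sum_univ_castSucc, Fintype.sum_option, hpl, mul_zero, add_zero,
        add_div, Finset.sum_div]
      have h2 := hpv (z' (slam F w ω)) none (bt (Pool.M3F.exF F k s) ω)
      have e0 : vx m none = none := rfl
      rw [e0, hb] at h2
      rw [h2]
      congr 1
      · show 1 * _ = 1 * _ / 2 ^ s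
        ring
      · refine Finset.sum_congr rfl fun i _ => ?_
        have h3 := hpv (z' (slam F w ω)) (some i) (bt (Pool.M3F.exF F k s) ω)
        have e1 : vx m (some i) = some (Fin.castSucc i) := rfl
        rw [e1, hb] at h3
        rw [h3]
        have e2 : bd (Pool.M3F.exF F k s) ω (some (Fin.castSucc i)) = bd F ω (some i) :=
          sn_cs _ _ i
        rw [e2, mul_div_assoc]
    rw [h1, ← sub_div, abs_div, abs_of_pos h2s]
    have h2 : Y * 2 ^ w / 2 ^ s = Y / 2 ^ s * 2 ^ w := by ring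
    refine (div_le_div_of_nonneg_right (hvel ω hω) h2s.le).trans ?_
    rw [h2]
    refine (mul_le_mul_of_nonneg_right hY (by positivity)).trans (le_of_eq ?_)
    ring
  · intro (ω : F.Ω) (hω : B ω) b hbb o
    show |eval b (pderiv o (C (1 / 2 ^ s) * rename (vx m)
      (G (z' (rL F k s (slam (Pool.M3F.exF F k s) w ω))))))| ≤ _
    rw [hrL]
    have hball : ∀ o, |(b ∘ vx m) o - bt F ω o| ≤ 1 / 2 ^ J := by
      intro o
      rw [← hb ω]
      exact hbb (vx m o)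
    have hin : ∀ o : Option (Fin m), |eval b (pderiv (vx m o) (C (1 / 2 ^ s) * rename (vx m)
        (G (z' (slam F w ω)))))| ≤ 2 ^ E := by
      intro o
      rw [hpv, abs_div, abs_of_pos h2s]
      exact (div_le_div_of_nonneg_right (hlip ω hω _ hball o) h2s.le).trans hY'
    rcases o with _ | i
    · exact hin none
    · refine Fin.lastCases ?_ (fun i => ?_) i
      · rw [hpl, abs_zero]
        positivity
      · exact hin (some i)

/-! ### The numbers -/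

theorem pw_le {X y : ℝ} {a b : ℕ} (hX : X ≤ (2 : ℝ) ^ y) (h : y + a ≤ b) :
    X * 2 ^ a ≤ 2 ^ b := by
  have h1 : (2 : ℝ) ^ a = (2 : ℝ) ^ (a : ℝ) := (Real.rpow_natCast 2 a).symm
  have h2 : (2 : ℝ) ^ b = (2 : ℝ) ^ (b : ℝ) := (Real.rpow_natCast 2 b).symm
  rw [h1, h2]
  calc X * (2 : ℝ) ^ (a : ℝ) ≤ (2 : ℝ) ^ y * (2 : ℝ) ^ (a : ℝ) :=
        mul_le_mul_of_nonneg_right hX (Real.rpow_nonneg (by norm_num) _)
    _ = (2 : ℝ) ^ (y + a) := (Real.rpow_add (by norm_num) _ _).symm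
    _ ≤ _ := Real.rpow_le_rpow_of_exponent_le (by norm_num) h

theorem num_pos {X y : ℝ} {q s P : ℕ} (hX : X ≤ (2 : ℝ) ^ y) (h : y + P ≤ q + s) :
    X / 2 ^ q / 2 ^ s ≤ 1 / 2 ^ P := by
  have h1 := pw_le (a := P) (b := q + s) hX (by push_cast; exact h)
  rw [div_div, ← pow_add, div_le_div_iff₀ (by positivity) (by positivity), one_mul]
  exact h1

theorem num_lip {X y : ℝ} {q s E a b : ℕ} (hX0 : 0 ≤ X) (hX : X ≤ (2 : ℝ) ^ y)
    (h0 : y + 2 ≤ E + s) (h1 : y + 2 + a ≤ E + s + q) (h2 : y + 2 + b ≤ E + s + q) :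
    X * (1 + 2 ^ a / 2 ^ q + 2 ^ b / 2 ^ q) / 2 ^ s ≤ 2 ^ E := by
  have k0 := pw_le (a := q + 2) (b := E + s + q) hX (by push_cast; linarith)
  have k1 := pw_le (a := a + 2) (b := E + s + q) hX (by push_cast; linarith)
  have k2 := pw_le (a := b + 2) (b := E + s + q) hX (by push_cast; linarith)
  have e0 : X * (1 + 2 ^ a / 2 ^ q + 2 ^ b / 2 ^ q) / 2 ^ s =
      (X * 2 ^ q + X * 2 ^ a + X * 2 ^ b) / (2 ^ s * 2 ^ q) := by
    field_simp
  rw [e0, div_le_iff₀ (by positivity)]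
  have e1 : (2 : ℝ) ^ E * (2 ^ s * 2 ^ q) = 2 ^ (E + s + q) := by
    rw [pow_add, pow_add]
    ring
  rw [e1]
  rw [pow_add 2 q 2] at k0
  rw [pow_add 2 a 2] at k1
  rw [pow_add 2 b 2] at k2
  have p0 : (0 : ℝ) ≤ X * 2 ^ q := by positivity
  have p1 : (0 : ℝ) ≤ X * 2 ^ a := by positivity
  have p2 : (0 : ℝ) ≤ X * 2 ^ b := by positivity
  linarith

/-- The constants are small powers. -/
theorem num_X {Z η : ℝ} (hZ : 1 ≤ Z) (hη : 0 < η) : ∃ ψ : ℝ, 0 < ψ ∧ ∃ J₁ : ℕ, ∀ J ≥ J₁,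
    Z * Real.exp (Z * (ψ * J + 1)) ≤ (2 : ℝ) ^ (η * J) ∧
      Z * (ψ * J + 1) ≤ η * J * Real.log 2 := by
  have hl2 : 0 < Real.log 2 := Real.log_pos one_lt_two
  have hZ0 : 0 < Z := by linarith
  obtain ⟨J₁, hJ₁⟩ := exists_nat_ge ((Real.log Z + Z) / (η / 2 * Real.log 2))
  refine ⟨η * Real.log 2 / (2 * Z), by positivity, J₁, fun J hJ => ?_⟩
  have h1 : (J₁ : ℝ) ≤ J := by exact_mod_cast hJ
  have h2 := hJ₁.trans h1
  rw [div_le_iff₀ (by positivity)] at h2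
  have h3 : Z * (η * Real.log 2 / (2 * Z) * J + 1) = η / 2 * Real.log 2 * J + Z := by
    field_simp
  have hlZ : 0 ≤ Real.log Z := Real.log_nonneg hZ
  rw [h3]
  constructor
  · have h4 : Z * Real.exp (η / 2 * Real.log 2 * J + Z) =
        Real.exp (Real.log Z + (η / 2 * Real.log 2 * J + Z)) := by
      rw [Real.exp_add (Real.log Z), Real.exp_log hZ0]
    rw [h4, Real.rpow_def_of_pos (by norm_num : (0 : ℝ) < 2)]
    refine Real.exp_le_exp.2 ?_
    linarith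
  · linarith

/-- **The number of the additional coordinate, from below.** -/
theorem num_tgt {S : PCl m} (hne : S.Ne) {C₀ : ℝ} (htm : TmC S C₀) {c : ℕ → Fin m} {r : ℕ}
    (hc : Set.InjOn c (Set.Iio (r + 1))) {P₀ w sg s W : ℝ}
    {L : Finset (Fin (m + 1)) → Fin (m + 1) → ℝ → ℝ → ℝ} (hT : Pool.JTN.TgP S c r P₀ w w sg)
    (hL : LamW (exC S (c r) s) L) (hsg : sg < 1) (hs : sg ≤ P₀ + s)
    (hs1 : P₀ + s ≤ 1) (hw0 : 0 ≤ w) (hwP : w ≤ P₀ + s) (hwW : w < W) :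
    P₀ + s ≤ L (((range r).image c).map Fin.castSuccEmb) (Fin.last m) W 1 := by
  classical
  by_contra hcon
  push Not at hcon
  obtain ⟨h, hh⟩ : ∃ h : ℝ, h = (L (((range r).image c).map Fin.castSuccEmb) (Fin.last m) W 1 +
    (P₀ + s)) / 2 := ⟨_, rfl⟩
  have hh1 : L (((range r).image c).map Fin.castSuccEmb) (Fin.last m) W 1 < h := by linarith
  have hh2 : h < P₀ + s := by linarith
  obtain ⟨d, hd, hWd, habs⟩ := hL.abs _ _ W 1 h hh1 (by linarith)
  have hW1 : W < 1 := by linarith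
  have hh0 : 0 < h := by
    have := hL.low (((range r).image c).map Fin.castSuccEmb) (Fin.last m) W 1 hW1.le
    linarith
  have hl2 : 0 < Real.log 2 := Real.log_pos one_lt_two
  -- the small numbers
  obtain ⟨η, hη⟩ : ∃ η : ℝ, η = min (d / 8) (min ((P₀ + s - h) / 4) (min ((1 - sg) / 4)
    ((1 - w) / 2))) := ⟨_, rfl⟩
  have hη0 : 0 < η := by
    rw [hη]
    refine lt_min (by linarith) (lt_min (by linarith) (lt_min (by linarith) (by linarith)))
  have hη1 : η ≤ d / 8 := by rw [hη]; exact min_le_left _ _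
  have hη2 : η ≤ (P₀ + s - h) / 4 := by
    rw [hη]; exact (min_le_right _ _).trans (min_le_left _ _)
  have hη3 : η ≤ (1 - sg) / 4 := by
    rw [hη]; exact (min_le_right _ _).trans ((min_le_right _ _).trans (min_le_left _ _))
  have hη4 : η ≤ (1 - w) / 2 := by
    rw [hη]; exact (min_le_right _ _).trans ((min_le_right _ _).trans (min_le_right _ _))
  obtain ⟨K', K₁, hK₁, hTb⟩ := hT η hη0
  choose Zf Df hZf hmem using fun i => mem_n m i K'
  obtain ⟨Z, hZ⟩ : ∃ Z : ℝ, Z = ∑ i ∈ range (r + 1), Zf i := ⟨_, rfl⟩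
  obtain ⟨D, hD⟩ : ∃ D : ℕ, D = ∑ i ∈ range (r + 1), Df i := ⟨_, rfl⟩
  have hZi : ∀ i ≤ r, Zf i ≤ Z := fun i hi => by
    rw [hZ]
    exact Finset.single_le_sum (f := Zf) (fun j _ => by linarith [hZf j])
      (mem_range.2 (by omega))
  have hDi : ∀ i ≤ r, Df i ≤ D := fun i hi => by
    rw [hD]
    exact Finset.single_le_sum (f := Df) (fun j _ => Nat.zero_le _) (mem_range.2 (by omega))
  have hZ1 : 1 ≤ Z := (hZf 0).trans (hZi 0 (Nat.zero_le _))
  obtain ⟨ψ, hψ, J₁, hX⟩ := num_X hZ1 hη0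
  -- the statements of the class
  have b1 := Pool.GRW.bas_part (Pool.GRW.tms_bas htm hψ) (c := K₁ * Z) (by positivity)
  have b2 : Bas S (fun J F A => ∀ B : F.Ω → Prop, Sub B A → Pe F.p A ≤ K₁ * Z * Pe F.p B →
      ¬ Lb (Pool.M3F.exF F (c r) ⌊s * J⌋₊) (((range r).image c).map Fin.castSuccEmb)
        (Fin.last m) D ⌊d * J⌋₊ J ⌊(W + d) * J⌋₊ ⌊(1 + d) * J⌋₊ ⌊h * J⌋₊ B) := by
    obtain ⟨τ, hτ, J₂, h2⟩ := Pool.GRW.bas_part (habs d le_rfl D) (c := K₁ * Z) (by positivity)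
    exact ⟨τ, hτ, J₂, fun J hJ F A hA B hB hP =>
      h2 J hJ (Pool.EXTC.exF (c r) ⌊s * J⌋₊ F) A (exSt.mk J F A hA) B hB hP⟩
  have hTb' := hTb.and (b1.and b2)
  obtain ⟨τ, hτ, J₂, hall⟩ := hTb'
  obtain ⟨J₃, hJ₃⟩ := exists_nat_ge (4 / η)
  obtain ⟨J, hJ, F, A, hA⟩ := hne τ hτ (max J₁ (max J₂ J₃))
  obtain ⟨hXJ, hZJ⟩ := hX J ((le_max_left _ _).trans hJ)
  obtain ⟨⟨B, c', i, e', q, hBA, hPB, hir, hc', hcc, hcr, hch, hq, he⟩, htms, hno⟩ :=
    hall J (((le_max_left _ _).trans (le_max_right _ _)).trans hJ) F A hA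
  have hJη : 4 ≤ η * J := by
    have h1 : (J₃ : ℝ) ≤ J := by
      exact_mod_cast ((le_max_right _ _).trans (le_max_right _ _)).trans hJ
    have h2 := hJ₃.trans h1
    rw [div_le_iff₀ hη0] at h2
    linarith
  have hJ0 : (0 : ℝ) ≤ J := Nat.cast_nonneg J
  -- the mass
  have hP0 : ∀ B' : F.Ω → Prop, Sub B' B → Pe F.p B ≤ Z * Pe F.p B' →
      Sub B' A ∧ Pe F.p A ≤ K₁ * Z * Pe F.p B' := by
    intro B' hB' hP'
    refine ⟨fun ω hω => hBA ω (hB' ω hω), ?_⟩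
    calc Pe F.p A ≤ K₁ * Pe F.p B := hPB
      _ ≤ K₁ * (Z * Pe F.p B') := mul_le_mul_of_nonneg_left hP' hK₁.le
      _ = _ := by ring
  have hBB : Pe F.p B ≤ Z * Pe F.p B :=
    le_mul_of_one_le_left (Pe_nonneg F.isLaw _) hZ1
  have hB0 : 0 < Pe F.p B := by
    obtain ⟨h1, h2⟩ := hP0 B (fun _ h => h) hBB
    exact (htms B h1 h2).choose
  -- the chain
  have hinj : Pool.STAT.CLO.Inj c' (i + 1) := by
    have key : ∀ l < i, c' l ≠ c' i := by
      intro l hl h1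
      obtain ⟨j, hj, h2⟩ := hcc l hl
      rw [h2, hcr] at h1
      have h3 := hc (show j ∈ Set.Iio (r + 1) from by show j < r + 1; omega)
        (show r ∈ Set.Iio (r + 1) from by show r < r + 1; omega) h1
      omega
    intro l hl l' hl' h1
    rcases Nat.lt_or_ge l i with h2 | h2 <;> rcases Nat.lt_or_ge l' i with h3 | h3
    · exact hc' h2 h3 h1
    · have : l' = i := by omega
      subst this
      exact absurd h1 (key l h2)
    · have : l = i := by omega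
      subst this
      exact absurd h1.symm (key l' h3)
    · omega
  have hwJ : (⌊w * J⌋₊ : ℝ) ≤ w * J := Nat.floor_le (mul_nonneg hw0 hJ0)
  obtain ⟨Gm, hGm⟩ : ∃ Gm, Gm = (Finset.Icc 0 i).sup q := ⟨_, rfl⟩
  have hGq : ∀ l ≤ i, q l ≤ Gm := fun l hl => by
    rw [hGm]
    exact Finset.le_sup (f := q) (Finset.mem_Icc.2 ⟨Nat.zero_le _, hl⟩)
  have heG : ((e' + Gm : ℕ) : ℝ) ≤ (sg + η) * J := by
    obtain ⟨l, hl, h1⟩ := Finset.exists_mem_eq_sup (Finset.Icc 0 i) ⟨0, by simp⟩ q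
    rw [hGm, h1]
    exact he l (Finset.mem_Icc.1 hl).2
  obtain ⟨X, hXd⟩ : ∃ X : ℝ, X = Z * Real.exp (Z * (ψ * J + 1)) := ⟨_, rfl⟩
  rw [← hXd] at hXJ
  have hψJ : 0 ≤ ψ * J := mul_nonneg hψ.le hJ0
  have hX0 : 0 ≤ X := by
    rw [hXd]
    exact mul_nonneg (by linarith) (Real.exp_pos _).le
  -- products with `J`
  have m3 := mul_le_mul_of_nonneg_right hη3 hJ0
  have m2 := mul_le_mul_of_nonneg_right hη2 hJ0
  have m1 := mul_le_mul_of_nonneg_right hη1 hJ0
  have m4 := mul_le_mul_of_nonneg_right hη4 hJ0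
  have ms := mul_le_mul_of_nonneg_right hs hJ0
  have mw := mul_le_mul_of_nonneg_right hwP hJ0
  have hsJ : s * J < (⌊s * (J : ℝ)⌋₊ : ℝ) + 1 := Nat.lt_floor_add_one _
  have hdJ : d * J < (⌊d * (J : ℝ)⌋₊ : ℝ) + 1 := Nat.lt_floor_add_one _
  have hsJ0 : (0 : ℝ) ≤ (⌊s * (J : ℝ)⌋₊ : ℝ) := Nat.cast_nonneg _
  have hXG : X * 2 ^ (e' + Gm) ≤ 2 ^ J := by
    refine pw_le hXJ ?_
    linarith
  obtain ⟨z, z', G, B', hB'B, hPB', hdeg, hdep, hcls, hpos, hvel, hlip⟩ :=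
    hmem i J F c' ⌊w * J⌋₊ e' Gm q B (ψ * J) X (fl_le (by linarith) J) hinj hch hGq hB0 hψJ
      (fun B' hB'0 hB'B hP' => by
        obtain ⟨h1, h2⟩ := hP0 B' hB'B (hP'.trans
          (mul_le_mul_of_nonneg_right (hZi i hir) (Pe_nonneg F.isLaw _)))
        exact (htms B' h1 h2).choose_spec)
      (by
        have h1 : Zf i * (ψ * J + 1) ≤ Z * (ψ * J + 1) :=
          mul_le_mul_of_nonneg_right (hZi i hir) (by linarith)
        have h2 : η * J * Real.log 2 ≤ ((J : ℝ) - ⌊w * J⌋₊) * Real.log 2 := by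
          refine mul_le_mul_of_nonneg_right ?_ hl2.le
          linarith
        linarith)
      (by
        rw [hXd]
        exact mul_le_mul (hZi i hir) (Real.exp_le_exp.2
          (mul_le_mul_of_nonneg_right (hZi i hir) (by linarith))) (Real.exp_pos _).le
          (by linarith)) hXG
  rw [hcr] at hpos hvel
  have hlb := lb_ex (F := F) (k := c r) (s := ⌊s * J⌋₊) (I := (range i).image c') (D := Df i)
    (w := ⌊w * J⌋₊) (E := ⌊d * J⌋₊) (P := ⌊h * J⌋₊) z z' G hdeg hdep hcls hpos hvel hlip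
    (by
      refine num_pos hXJ ?_
      have h1 : (⌊h * (J : ℝ)⌋₊ : ℝ) ≤ h * J := Nat.floor_le (mul_nonneg hh0.le hJ0)
      linarith)
    (by
      refine num_lip hX0 hXJ ?_ ?_ ?_
      · linarith
      · linarith
      · linarith)
  obtain ⟨h1, h2⟩ := hP0 B' hB'B (hPB'.trans
    (mul_le_mul_of_nonneg_right (hZi i hir) (Pe_nonneg F.isLaw _)))
  refine hno B' h1 h2 (hlb.mono ?_ (hDi i hir) le_rfl le_rfl ?_ ?_ ?_ le_rfl)
  · refine Finset.map_subset_map.2 ?_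
    intro k hk
    obtain ⟨l, hl, rfl⟩ := Finset.mem_image.1 hk
    obtain ⟨j, hj, h3⟩ := hcc l (mem_range.1 hl)
    rw [h3]
    exact Finset.mem_image_of_mem _ (mem_range.2 hj)
  · exact Nat.floor_le_floor (mul_le_mul_of_nonneg_right (by linarith) hJ0)
  · exact fl_le hWd J
  · refine Nat.le_floor ?_
    have : 0 ≤ d * J := mul_nonneg hd.le hJ0
    linarith

end Pool.EXT96
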