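import Pool.Agent.H96.EXT.Lin
import Pool.Agent.H99.GEN.GrC

/-!
# The closed polynomials of a chain near the samples

`pd_tb`: derivatives of the translated polynomials. `mem_n`: the closed polynomial of the last
coordinate of a chain, with the velocities and with the gradients on the balls of radius
`2 ^ (-J)`.
-/

set_option autoImplicit false

namespace Pool.EXT96

open Finset Real MvPolynomial
open Pool.Agent.H49.Ent Pool.Agent.H32.Dense Pool.STK Pool.KA Pool.KSAT Pool.K2S Pool.PB Pool.GEN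
open Pool.STAT Pool.STAT.CLO Pool.M3F Pool.GRD
open Pool.FLF (Fam.sub)
open Pool.PB.Trl (rt rt_mem t_rt)

variable {m J : ℕ}

/-- The variable of the chain. -/
def vo (c : ℕ → Fin m) (j : ℕ) : Option (Fin m) := if j = 0 then none else some (c (j - 1))

theorem bk_vo (c : ℕ → Fin m) (j : ℕ) : bk c j = X (vo c j) := by
  unfold bk vo
  split_ifs <;> rfl

theorem pb_vo (c : ℕ → Fin m) (b : Option (Fin m) → ℝ) (j : ℕ) : pb c b j = b (vo c j) := by
  unfold pb vo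
  split_ifs <;> rfl

/-- The derivatives of the translated polynomials. -/
theorem pd_tb (c : ℕ → Fin m) (Q : PN) (o : Option (Fin m)) (b : Option (Fin m) → ℝ) :
    eval b (pderiv o (tb c Q)) =
      eval (pb c b) (lieN (fun j => C (if vo c j = o then (1 : ℝ) else 0)) Q) := by
  classical
  induction Q using MvPolynomial.induction_on with
  | C a =>
    have h1 : lieN (fun j => C (if vo c j = o then (1 : ℝ) else 0)) (C a : PN) = 0 :=
      (lieN fun j => C (if vo c j = o then (1 : ℝ) else 0)).map_algebraMap a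
    have h2 : tb c (C a : PN) = C a := by
      unfold GRD.tb
      rw [bind₁_C_right]
    rw [h1, h2, pderiv_C, map_zero, map_zero]
  | add p q hp hq =>
    have h2 : tb c (p + q) = tb c p + tb c q := by
      unfold GRD.tb
      rw [map_add]
    rw [h2, map_add, map_add, map_add, map_add, hp, hq]
  | mul_X p i hp =>
    have h1 : lieN (fun j => C (if vo c j = o then (1 : ℝ) else 0)) (p * X i : PN) =
        p * C (if vo c i = o then (1 : ℝ) else 0) +
          X i * lieN (fun j => C (if vo c j = o then (1 : ℝ) else 0)) p := by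
      rw [Derivation.leibniz, smul_eq_mul, smul_eq_mul]
      congr 2
      unfold lieN
      exact mkDerivation_X _ _ _
    have h2 : tb c (p * X i) = tb c p * X (vo c i) := by
      unfold GRD.tb
      rw [map_mul, bind₁_X_right, bk_vo]
    have h3 : eval b (pderiv o (X (vo c i) : MvPolynomial (Option (Fin m)) ℝ)) =
        if vo c i = o then (1 : ℝ) else 0 := by
      rw [pderiv_X]
      by_cases h : vo c i = o
      · rw [if_pos h, h, Pi.single_eq_same, map_one]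
      · rw [if_neg h, Pi.single_eq_of_ne h, map_zero]
    rw [h1, h2, pderiv_mul]
    simp only [map_add, map_mul, eval_X, eval_C]
    rw [hp, h3, eval_tb, pb_vo]
    ring

theorem vo_inj {c : ℕ → Fin m} {n : ℕ} (hc : Inj c n) {j l : ℕ} (hj : j ≤ n) (hl : l ≤ n)
    (h : vo c j = vo c l) : j = l := by
  unfold vo at h
  split_ifs at h with h1 h2 h2
  · omega
  · have h3 := hc (j - 1) (by omega) (l - 1) (by omega) (Option.some.inj h)
    omega

/-- The derivative in the direction of a coordinate of the chain. -/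
theorem pd_tb_at {c : ℕ → Fin m} {n : ℕ} (hc : Inj c n) {Q : PN} {i : ℕ} (hi : i ≤ n + 1)
    (hQ : Q.vars ⊆ range i) {l : ℕ} (hl : l < i) (b : Option (Fin m) → ℝ) :
    eval b (pderiv (vo c l) (tb c Q)) = eval (pb c b) (pderiv l Q) := by
  classical
  rw [pd_tb, FLB.lieN_eq _ hQ, map_sum, Finset.sum_eq_single l]
  · rw [map_mul, eval_C, if_pos rfl, mul_one]
  · intro j hj hjl
    have hj' := mem_range.1 hj
    rw [map_mul, eval_C, if_neg (fun h => hjl (vo_inj hc (by omega) (by omega) h)), mul_zero]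
  · exact fun h => absurd (mem_range.2 hl) h

/-- The derivatives in the other directions. -/
theorem pd_tb_ne {c : ℕ → Fin m} {Q : PN} {i : ℕ} (hQ : Q.vars ⊆ range i)
    {o : Option (Fin m)} (ho : ∀ l < i, vo c l ≠ o) (b : Option (Fin m) → ℝ) :
    eval b (pderiv o (tb c Q)) = 0 := by
  classical
  rw [pd_tb, FLB.lieN_eq _ hQ, map_sum]
  refine Finset.sum_eq_zero fun j hj => ?_
  rw [map_mul, eval_C, if_neg (ho j (mem_range.1 hj)), mul_zero]

/-- The positions of the line in the coordinates of the chain. -/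
noncomputable def lu (F : Fam m J) (c : ℕ → Fin m) (ω : F.Ω) (j : ℕ) : ℝ :=
  if j = 0 then 0 else F.u ω (c (j - 1))

/-- The directions of the line in the coordinates of the chain. -/
noncomputable def ld (F : Fam m J) (c : ℕ → Fin m) (ω : F.Ω) (j : ℕ) : ℝ :=
  if j = 0 then 1 else F.d ω (c (j - 1))

/-- The deviation of the line from the graph, in the coordinates of the chain. -/
theorem dv_line (F : Fam m J) (c : ℕ → Fin m) (w : ℕ) (G : LnT F → PN) (l : ℕ) (ω : F.Ω)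
    (τ : ℝ) : (dv w (fun s (_ : Fin m) => tb c (G s)) (c l) (slam F w ω)).eval τ =
    (lu F c ω (l + 1) + ld F c ω (l + 1) * (((F.T1 w ω : ℝ) + τ) / 2 ^ w)) -
      eval (fun j => lu F c ω j + ld F c ω j * (((F.T1 w ω : ℝ) + τ) / 2 ^ w))
        (G (slam F w ω)) := by
  have e1 : ((slam F w ω).2.2 : ℝ) = (F.T1 w ω : ℝ) := rfl
  unfold dv
  rw [Polynomial.eval_sub, Pool.KBX.eval_aeval_poly, eval_tb]
  congr 1
  · simp only [lc, Polynomial.eval_add, Polynomial.eval_mul, Polynomial.eval_C, Polynomial.eval_X]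
    have h1 : lu F c ω (l + 1) = F.u ω (c l) := if_neg (by omega)
    have h2 : ld F c ω (l + 1) = F.d ω (c l) := if_neg (by omega)
    rw [h1, h2, e1]
    have e2 : (slam F w ω).1.1 (c l) = F.u ω (c l) := rfl
    have e3 : (slam F w ω).1.2 (c l) = F.d ω (c l) := rfl
    rw [e2, e3]
    ring
  · congr 2
    funext j
    unfold pb lu ld
    split_ifs with h
    · simp only [lc, Polynomial.eval_add, Polynomial.eval_mul, Polynomial.eval_C,
        Polynomial.eval_X]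
      rw [e1]
      ring
    · simp only [lc, Polynomial.eval_add, Polynomial.eval_mul, Polynomial.eval_C,
        Polynomial.eval_X]
      rw [e1]
      have e2 : (slam F w ω).1.1 (c (j - 1)) = F.u ω (c (j - 1)) := rfl
      have e3 : (slam F w ω).1.2 (c (j - 1)) = F.d ω (c (j - 1)) := rfl
      rw [e2, e3]
      ring

/-- **The closed polynomials of a chain**, on an event, near the lines. -/
theorem line_n (m i K : ℕ) : ∃ (Z : ℝ) (D : ℕ), 1 ≤ Z ∧ 1 ≤ D ∧ ∀ (J : ℕ) (F : Fam m J)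
    (c : ℕ → Fin m) (w e : ℕ) (g : ℕ → ℕ) (A : F.Ω → Prop) (θ : ℝ)
    (G : PtT F → ℕ → MvPolynomial (Option (Fin m)) ℝ)
    (H : LnT F → ℕ → MvPolynomial (Option (Fin m)) ℝ), w ≤ J → Inj c (i + 1) →
    ChOK F c (i + 1) (fun _ => K) w w e g A G H → 0 < Pe F.p A → 0 ≤ θ →
    (∀ (B : F.Ω → Prop) (hB : 0 < Pe F.p B), Sub B A → Pe F.p A ≤ Z * Pe F.p B →
      (Fam.sub F B hB).Tm θ) →
    Z * (θ + 1) ≤ ((J : ℝ) - w) * Real.log 2 →
    ∃ (z : PtT F → LV) (z' : LnT F → LV) (P : LV → ℕ → PN) (B : F.Ω → Prop), Sub B A ∧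
      Pe F.p A ≤ Z * Pe F.p B ∧ (∀ v, TriN (P v)) ∧ (∀ v j, (P v j).totalDegree ≤ D) ∧
      (∀ ω, B ω → z (ptr F J ω) = z' (slam F w ω)) ∧
      (∀ ω, B ω → Nr D 1 (gg w g) (P (z' (slam F w ω))) (Gs c (i + 1) w G (ptr F J ω))
        (i + 1 + 1)) ∧
      ∀ ω, B ω → ∀ l ≤ i, ∀ τ ∈ Set.Icc (0 : ℝ) 1,
        |(dv w (fun s (_ : Fin m) => tb c (P (z' s) (l + 1))) (c l) (slam F w ω)).eval τ| ≤
          Z * Real.exp (Z * (θ + 1)) / 2 ^ g l := by
  classical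
  obtain ⟨D, hD, hclo⟩ := clo1 (i + 1) K
  obtain ⟨C₁, hC₁, hrem⟩ := Pool.PZ.Zrt.rem_ev (m := m) (2 * (D + 1))
  obtain ⟨κ, hκ⟩ : ∃ κ : ℝ, κ = 1 + ((D : ℝ) * 1 * 1) ^ D := ⟨_, rfl⟩
  have hκ1 : 1 ≤ κ := by
    rw [hκ]
    have : (0 : ℝ) ≤ ((D : ℝ) * 1 * 1) ^ D := by positivity
    linarith
  have hD1 : (1 : ℝ) ≤ D := by exact_mod_cast hD
  obtain ⟨Z, hZ⟩ : ∃ Z : ℝ, Z = 2 * D + C₁ + (i + 1) * κ ^ 2 := ⟨_, rfl⟩
  have hi0 : (0 : ℝ) ≤ i := Nat.cast_nonneg i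
  have hiκ : 1 ≤ ((i : ℝ) + 1) * κ ^ 2 := by nlinarith
  have hZD : 2 * D ≤ Z := by rw [hZ]; linarith
  have hZC : C₁ ≤ Z := by rw [hZ]; linarith
  have hZκ : (i + 1) * κ ^ 2 ≤ Z := by rw [hZ]; linarith
  refine ⟨Z, D, by linarith, hD, ?_⟩
  intro J F c w e g A θ G H hw hc h hA hθ hTm hJ
  obtain ⟨z, z', P, B₁, hB₁, hPe₁, htri, hdeg, hcls, hnr, -⟩ :=
    hclo m J F c (fun _ => K) w w e g A G H le_rfl hw hc (fun _ _ => le_rfl) h
  have hB₁0 : 0 < Pe F.p B₁ := by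
    by_contra hcon
    push Not at hcon
    have h1 : Pe F.p B₁ = 0 := le_antisymm hcon (Pe_nonneg F.isLaw _)
    rw [h1, mul_zero] at hPe₁
    linarith
  -- the positions
  have hpos : ∀ ω, B₁ ω → ∀ l ≤ i,
      |F.x ω (c l) - eval (bt F ω) (tb c (P (z' (slam F w ω)) (l + 1)))| ≤ κ / 2 ^ g l := by
    intro ω hω l hl
    rw [← hcls ω hω, eval_tb]
    obtain ⟨Y, hY⟩ : ∃ Y : ℕ → ℝ, Y = Pool.STAT.cx F (fun i => c (i - 1)) ω := ⟨_, rfl⟩
    have hYp : pb c (bt F ω) = Y := by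
      funext l
      rw [hY]
      unfold pb
      split_ifs with h1
      · rw [h1]
        exact (if_pos rfl).symm
      · exact (if_neg h1).symm
    rw [hYp]
    have hbox : Bxr 1 (gg w g) (Gs c (i + 1) w G (ptr F J ω)) (l + 1) Y := by
      intro j hj
      rcases Nat.eq_zero_or_pos j with h0 | h0
      · subst h0
        have h1 : Y 0 = F.t ω := by
          rw [hY]
          exact if_pos rfl
        have h2 : gg w g 0 = w := if_pos rfl
        unfold Gs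
        rw [h1, h2, sy_zero, eval_C, tp_eq]
        exact t_cell F hw ω
      · rw [hY]
        exact pos_of hc h (hB₁ ω hω) h0 (by omega)
    have h3 := (hnr ω hω).2 (l + 1) (by omega) (by omega) 1 le_rfl Y hbox
    have h4 := pos_of hc h (hB₁ ω hω) (i := l + 1) (by omega) (by omega)
    rw [← hY] at h4
    have h5 : Y (l + 1) = F.x ω (c l) := by
      rw [hY]
      exact if_neg (by omega)
    have h6 : gg w g (l + 1) = g l := if_neg (by omega)
    rw [h6] at h3 h4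
    rw [h5] at h4
    rw [hκ, add_div]
    rw [abs_le] at h3 h4 ⊢
    constructor <;> linarith [h3.1, h3.2, h4.1, h4.2]
  -- one polynomial in the time
  obtain ⟨q, hq⟩ : ∃ q : LnT F → Polynomial ℝ, q = fun s => ∑ l ∈ range (i + 1),
      (Polynomial.C ((2 : ℝ) ^ g l) *
        dv w (fun s (_ : Fin m) => tb c (P (z' s) (l + 1))) (c l) s) ^ 2 := ⟨_, rfl⟩
  have hqd : ∀ s, (q s).natDegree ≤ 2 * (D + 1) := by
    intro s
    rw [hq]
    refine Polynomial.natDegree_sum_le_of_forall_le _ _ fun l _ => ?_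
    refine (Polynomial.natDegree_pow_le).trans ?_
    refine Nat.mul_le_mul_left 2 ((Polynomial.natDegree_C_mul_le _ _).trans ?_)
    exact natDegree_dv w (fun s _ => (tb_deg c _).trans (hdeg _ _)) (c l) s
  have hqe : ∀ s t, (q s).eval t = ∑ l ∈ range (i + 1), ((2 : ℝ) ^ g l *
      (dv w (fun s (_ : Fin m) => tb c (P (z' s) (l + 1))) (c l) s).eval t) ^ 2 := by
    intro s t
    rw [hq]
    simp only [Polynomial.eval_finsetSum, Polynomial.eval_pow, Polynomial.eval_mul,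
      Polynomial.eval_C]
  obtain ⟨B, hBB, hPB, hB⟩ := hrem J F B₁ hB₁0 w q ((i + 1) * κ ^ 2) θ hw hqd
    (by positivity) hθ (hTm B₁ hB₁0 hB₁ (hPe₁.trans (mul_le_mul_of_nonneg_right
      (by linarith) (Pe_nonneg F.isLaw _)))) (by
      refine le_trans ?_ hJ
      exact mul_le_mul_of_nonneg_right hZC (by linarith)) (by
      intro ω hω
      rw [hqe]
      have h1 : ∀ l ∈ range (i + 1), ((2 : ℝ) ^ g l *
          (dv w (fun s (_ : Fin m) => tb c (P (z' s) (l + 1))) (c l)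
            (slam F w ω)).eval (rt F w ω)) ^ 2 ≤ κ ^ 2 := by
        intro l hl
        have h2 := hpos ω hω l (by
          have := mem_range.1 hl
          omega)
        rw [eval_dv F hw (fun s (_ : Fin m) => tb c (P (z' s) (l + 1)))]
        rw [le_div_iff₀ (by positivity)] at h2
        refine sq_le_sq' ?_ ?_
        · have := neg_abs_le (F.x ω (c l) - eval (bt F ω) (tb c (P (z' (slam F w ω)) (l + 1))))
          have h3 : (0 : ℝ) < 2 ^ g l := by positivity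
          nlinarith
        · have := le_abs_self (F.x ω (c l) - eval (bt F ω) (tb c (P (z' (slam F w ω)) (l + 1))))
          have h3 : (0 : ℝ) < 2 ^ g l := by positivity
          nlinarith
      have h3 : 0 ≤ ∑ l ∈ range (i + 1), ((2 : ℝ) ^ g l *
          (dv w (fun s (_ : Fin m) => tb c (P (z' s) (l + 1))) (c l)
            (slam F w ω)).eval (rt F w ω)) ^ 2 := Finset.sum_nonneg fun j _ => sq_nonneg _
      rw [abs_of_nonneg h3]
      refine (Finset.sum_le_sum h1).trans (le_of_eq ?_)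
      rw [Finset.sum_const, card_range, nsmul_eq_mul]
      push_cast
      ring)
  refine ⟨z, z', P, B, fun ω hω => hB₁ ω (hBB ω hω), ?_, htri, hdeg,
    fun ω hω => hcls ω (hBB ω hω), fun ω hω => ?_, fun ω hω l hl τ hτ => ?_⟩
  · have h1 : Pe F.p B₁ ≤ 2 * Pe F.p B := by linarith
    calc Pe F.p A ≤ D * Pe F.p B₁ := hPe₁
      _ ≤ D * (2 * Pe F.p B) := mul_le_mul_of_nonneg_left h1 (by positivity)
      _ = 2 * D * Pe F.p B := by ring
      _ ≤ Z * Pe F.p B := mul_le_mul_of_nonneg_right hZD (Pe_nonneg F.isLaw _)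
  · rw [← hcls ω (hBB ω hω)]
    exact hnr ω (hBB ω hω)
  · obtain ⟨E, hE⟩ : ∃ E : ℝ, E = Real.exp (C₁ * (θ + 1)) := ⟨_, rfl⟩
    have hE1 : 1 ≤ E := by
      rw [hE, Real.one_le_exp_iff]
      exact mul_nonneg (by linarith) (by linarith)
    have hEZ : E ≤ Real.exp (Z * (θ + 1)) := by
      rw [hE]
      exact Real.exp_le_exp.2 (mul_le_mul_of_nonneg_right hZC (by linarith))
    have h2 := hB ω hω τ hτ
    rw [hqe, ← hE] at h2
    obtain ⟨v, hv⟩ : ∃ v : ℝ, v = (dv w (fun s (_ : Fin m) => tb c (P (z' s) (l + 1))) (c l)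
      (slam F w ω)).eval τ := ⟨_, rfl⟩
    rw [← hv]
    have h3 : ((2 : ℝ) ^ g l * v) ^ 2 ≤ ∑ l ∈ range (i + 1), ((2 : ℝ) ^ g l *
          (dv w (fun s (_ : Fin m) => tb c (P (z' s) (l + 1))) (c l)
            (slam F w ω)).eval τ) ^ 2 := by
      rw [hv]
      exact Finset.single_le_sum (f := fun l => ((2 : ℝ) ^ g l *
          (dv w (fun s (_ : Fin m) => tb c (P (z' s) (l + 1))) (c l)
            (slam F w ω)).eval τ) ^ 2) (fun j _ => sq_nonneg _) (mem_range.2 (by omega))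
    have h4 := (h3.trans (le_abs_self _)).trans h2
    obtain ⟨N, hN⟩ : ∃ N : ℝ, N = E * ((i + 1) * κ ^ 2) := ⟨_, rfl⟩
    rw [← hN] at h4
    have hN1 : 1 ≤ N := by
      rw [hN]
      nlinarith
    have h5 : |(2 : ℝ) ^ g l * v| ≤ N := by
      refine abs_le_of_sq_le_sq ?_ (by linarith)
      nlinarith
    rw [abs_mul, abs_of_pos (by positivity : (0 : ℝ) < 2 ^ g l)] at h5
    rw [le_div_iff₀ (by positivity), mul_comm]
    refine h5.trans ?_
    rw [hN, mul_comm]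
    exact mul_le_mul hZκ hEZ (by linarith) (by linarith)

/-- **The closed polynomial of the last coordinate of a chain**, with the velocities and with the
gradients on the balls of radius `2 ^ (-J)`. -/
theorem mem_n (m i K : ℕ) : ∃ (Z : ℝ) (D : ℕ), 1 ≤ Z ∧ ∀ (J : ℕ) (F : Fam m J)
    (c : ℕ → Fin m) (w e Gm : ℕ) (g : ℕ → ℕ) (A : F.Ω → Prop) (θ X : ℝ), w ≤ J →
    Inj c (i + 1) → ChN F c (i + 1) (fun _ => K) w w e g A → (∀ l ≤ i, g l ≤ Gm) →
    0 < Pe F.p A → 0 ≤ θ →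
    (∀ (B : F.Ω → Prop) (hB : 0 < Pe F.p B), Sub B A → Pe F.p A ≤ Z * Pe F.p B →
      (Fam.sub F B hB).Tm θ) →
    Z * (θ + 1) ≤ ((J : ℝ) - w) * Real.log 2 → Z * Real.exp (Z * (θ + 1)) ≤ X →
    X * 2 ^ (e + Gm) ≤ 2 ^ J →
    ∃ (z : PtT F → LV) (z' : LnT F → LV) (G : LV → MvPolynomial (Option (Fin m)) ℝ)
      (B : F.Ω → Prop), Sub B A ∧ Pe F.p A ≤ Z * Pe F.p B ∧ (∀ v, (G v).totalDegree ≤ D) ∧
      (∀ v, ∀ b b' : Option (Fin m) → ℝ, b none = b' none →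
        (∀ k ∈ (range i).image c, b (some k) = b' (some k)) → eval b (G v) = eval b' (G v)) ∧
      (∀ ω, B ω → z (ptr F J ω) = z' (slam F w ω)) ∧
      (∀ ω, B ω → |F.x ω (c i) - eval (bt F ω) (G (z' (slam F w ω)))| ≤ X / 2 ^ g i) ∧
      (∀ ω, B ω → |F.d ω (c i) -
        ∑ o, bd F ω o * eval (bt F ω) (pderiv o (G (z' (slam F w ω))))| ≤ X / 2 ^ g i * 2 ^ w) ∧
      ∀ ω, B ω → ∀ b : Option (Fin m) → ℝ, (∀ o, |b o - bt F ω o| ≤ 1 / 2 ^ J) → ∀ o,
        |eval b (pderiv o (G (z' (slam F w ω))))| ≤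
          X * (1 + 2 ^ (e + Gm) / 2 ^ g i + 2 ^ w / 2 ^ g i) := by
  classical
  obtain ⟨Z₁, D, hZ₁, hD, hline⟩ := line_n m i K
  obtain ⟨Z₂, hZ₂, hball⟩ := ball_core (i + 1) D (by omega)
  obtain ⟨C₀, M, hC₀, hgrad⟩ := grad_n (i + 1) K D hD
  obtain ⟨Z₃, hZ₃, hext⟩ := ext_int (D + 1)
  have hi0 : (0 : ℝ) ≤ i := Nat.cast_nonneg i
  obtain ⟨Y, hY⟩ : ∃ Y : ℝ, Y = (2 * i + 6) * (C₀ * (2 * (Z₂ * Z₁)) ^ M) +
      (4 * Z₂ * (Z₂ * Z₁) + Z₃ * Z₁) := ⟨_, rfl⟩
  have hY0 : 0 ≤ (2 * (i : ℝ) + 6) * (C₀ * (2 * (Z₂ * Z₁)) ^ M) := by positivity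
  have hY1 : 0 ≤ 4 * Z₂ * (Z₂ * Z₁) + Z₃ * Z₁ := by positivity
  have hM0 : (0 : ℝ) ≤ M := Nat.cast_nonneg M
  obtain ⟨Z, hZ⟩ : ∃ Z : ℝ, Z = Z₁ * (M + 1) + Y := ⟨_, rfl⟩
  have hZZ₁ : Z₁ * (M + 1) ≤ Z := by rw [hZ]; linarith
  have hZ₁M : Z₁ ≤ Z₁ * (M + 1) := le_mul_of_one_le_right (by linarith) (by linarith)
  have hZY : Y ≤ Z := by
    have : 0 ≤ Z₁ * ((M : ℝ) + 1) := by positivity
    rw [hZ]
    linarith
  refine ⟨Z, D, by linarith, ?_⟩
  intro J F c w e Gm g A θ X hw hc hch hGm hA hθ hTm hJ hX hXJ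
  obtain ⟨G, H, h⟩ := hch
  obtain ⟨z, z', P, B, hBA, hPe, htri, hdeg, hcls, hnr, hB⟩ := hline J F c w e g A θ G H hw hc h
    hA hθ (fun B hB hBA hP => hTm B hB hBA (hP.trans
      (mul_le_mul_of_nonneg_right (by linarith) (Pe_nonneg F.isLaw _))))
    (le_trans (mul_le_mul_of_nonneg_right (by linarith) (by linarith)) hJ)
  obtain ⟨E, hE⟩ : ∃ E : ℝ, E = Real.exp (Z₁ * (θ + 1)) := ⟨_, rfl⟩
  have hE1 : 1 ≤ E := by
    rw [hE, Real.one_le_exp_iff]
    exact mul_nonneg (by linarith) (by linarith)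
  obtain ⟨ρ₀, hρ₀⟩ : ∃ ρ₀ : ℝ, ρ₀ = Z₁ * E := ⟨_, rfl⟩
  rw [← hE, ← hρ₀] at hB
  have hρ1 : 1 ≤ ρ₀ := by
    rw [hρ₀]
    exact one_le_mul_of_one_le_of_one_le hZ₁ hE1
  obtain ⟨R, hR⟩ : ∃ R : ℝ, R = Z₂ * ρ₀ := ⟨_, rfl⟩
  have hR1 : 1 ≤ R := by
    rw [hR]
    exact one_le_mul_of_one_le_of_one_le hZ₂ hρ1
  obtain ⟨Θ, hΘ⟩ : ∃ Θ : ℝ, Θ = C₀ * (2 * R) ^ M := ⟨_, rfl⟩
  have hΘ1 : 1 ≤ Θ := by
    rw [hΘ]
    exact one_le_mul_of_one_le_of_one_le hC₀ (one_le_pow₀ (by linarith))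
  -- all constants
  have hbig : (2 * i + 6) * Θ + (4 * Z₂ * R + Z₃ * ρ₀) ≤ X := by
    refine le_trans ?_ hX
    have h1 : Real.exp (Z₁ * (M + 1) * (θ + 1)) ≤ Real.exp (Z * (θ + 1)) :=
      Real.exp_le_exp.2 (mul_le_mul_of_nonneg_right hZZ₁ (by linarith))
    have h2 : Real.exp (Z₁ * (M + 1) * (θ + 1)) = E ^ (M + 1) := by
      rw [hE, ← Real.exp_nat_mul]
      congr 1
      push_cast
      ring
    have h3 : (2 * i + 6) * Θ ≤ (2 * i + 6) * (C₀ * (2 * (Z₂ * Z₁)) ^ M) * E ^ (M + 1) := by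
      have e1 : (2 * i + 6) * Θ = (2 * i + 6) * (C₀ * (2 * (Z₂ * Z₁)) ^ M) * E ^ M := by
        rw [hΘ, hR, hρ₀]
        have : 2 * (Z₂ * (Z₁ * E)) = 2 * (Z₂ * Z₁) * E := by ring
        rw [this, mul_pow]
        ring
      rw [e1]
      exact mul_le_mul_of_nonneg_left (pow_le_pow_right₀ hE1 (by omega)) hY0
    have h4 : 4 * Z₂ * R + Z₃ * ρ₀ ≤ (4 * Z₂ * (Z₂ * Z₁) + Z₃ * Z₁) * E ^ (M + 1) := by
      have e1 : 4 * Z₂ * R + Z₃ * ρ₀ = (4 * Z₂ * (Z₂ * Z₁) + Z₃ * Z₁) * E ^ 1 := by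
        rw [hR, hρ₀]
        ring
      rw [e1]
      exact mul_le_mul_of_nonneg_left (pow_le_pow_right₀ hE1 (by omega)) hY1
    calc (2 * i + 6) * Θ + (4 * Z₂ * R + Z₃ * ρ₀) ≤ Y * E ^ (M + 1) := by
          rw [hY]
          linarith
      _ ≤ Z * Real.exp (Z * (θ + 1)) := by
          rw [← h2]
          exact mul_le_mul hZY h1 (Real.exp_pos _).le (by linarith)
  have hiΘ : (i : ℝ) * Θ ≥ 0 := by positivity
  have hZR : 0 ≤ 4 * Z₂ * R := by positivity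
  have hZρ : 0 ≤ Z₃ * ρ₀ := by positivity
  have hΘX : (2 * i + 6) * Θ ≤ X := by linarith only [hbig, hZR, hZρ]
  have hΘe : (2 * i + 6) * Θ = 2 * (i * Θ) + 6 * Θ := by ring
  rw [hΘe] at hbig hΘX
  have hX1 : 1 ≤ X := by linarith only [hΘX, hiΘ, hΘ1]
  have hX0 : 0 ≤ X := by linarith only [hX1]
  have hZρX : Z₃ * ρ₀ ≤ X := by linarith only [hbig, hiΘ, hΘ1, hZR]
  have hρZ : ρ₀ ≤ Z₃ * ρ₀ := le_mul_of_one_le_left (by linarith only [hρ1]) hZ₃
  have hρX : ρ₀ ≤ X := by linarith only [hZρX, hρZ]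
  have hZRX : 4 * Z₂ * R ≤ X := by linarith only [hbig, hiΘ, hΘ1, hZρ]
  -- the exponents
  have hgG : ∀ l' ≤ i, ∀ l ≤ l', (2 : ℝ) ^ (e + nlp g l l') ≤ 2 ^ (e + Gm) / 2 ^ g l' := by
    intro l' hl' l hl
    rw [le_div_iff₀ (by positivity), ← pow_add]
    refine pow_le_pow_right₀ (by norm_num) ?_
    have h1 := nlp_add (g := g) hl
    have h2 : (Finset.Icc l l').sup g ≤ Gm := Finset.sup_le fun j hj =>
      hGm j ((Finset.mem_Icc.1 hj).2.trans hl')
    omega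
  refine ⟨z, z', fun v => GRD.tb c (P v (i + 1)), B, hBA, hPe.trans
    (mul_le_mul_of_nonneg_right (by linarith) (Pe_nonneg F.isLaw _)),
    fun v => (tb_deg c _).trans (hdeg _ _), fun v b b' h0 hb => tb_dep c (htri v (i + 1)) h0 hb,
    hcls, fun ω hω => ?_, fun ω hω => ?_, fun ω hω => ?_⟩
  · have h1 := hB ω hω i le_rfl (rt F w ω) (rt_mem F w ω)
    rw [eval_dv F hw (fun s (_ : Fin m) => GRD.tb c (P (z' s) (i + 1)))] at h1
    exact h1.trans (div_le_div_of_nonneg_right hρX (by positivity))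
  · have h1 := (hext _ _ (natDegree_dv w (G := fun s (_ : Fin m) => GRD.tb c (P (z' s) (i + 1)))
      (fun s _ => (tb_deg c _).trans (hdeg _ _)) (c i) (slam F w ω))
      (hB ω hω i le_rfl) (rt F w ω) (by
        have := rt_mem F w ω
        rw [abs_of_nonneg this.1]
        linarith [this.2])).2
    rw [der_dv F hw, abs_mul, abs_of_pos (by positivity : (0 : ℝ) < 1 / 2 ^ w), one_div,
      inv_mul_le_iff₀ (by positivity)] at h1
    refine h1.trans ?_
    rw [mul_comm]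
    refine mul_le_mul_of_nonneg_right ?_ (by positivity)
    rw [← mul_div_assoc]
    exact div_le_div_of_nonneg_right hZρX (by positivity)
  -- the ball
  intro b hb o
  obtain ⟨v, hv⟩ : ∃ v, v = z' (slam F w ω) := ⟨_, rfl⟩
  have hnrv := hnr ω hω
  rw [← hv] at hnrv
  show |eval b (pderiv o (GRD.tb c (P (z' (slam F w ω)) (i + 1))))| ≤ _
  rw [← hv]
  obtain ⟨T, hT⟩ : ∃ T : ℝ, T = (F.T1 w ω : ℝ) := ⟨_, rfl⟩
  have h2J : (0 : ℝ) < 2 ^ J := by positivity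
  have h2w : (0 : ℝ) < 2 ^ w := by positivity
  have hwJ : (2 : ℝ) ^ w ≤ 2 ^ J := pow_le_pow_right₀ (by norm_num) hw
  obtain ⟨Hf, hHf⟩ : ∃ Hf : ℕ → ℝ, Hf = fun j => Θ * (2 ^ (e + Gm) / 2 ^ gg w g j) := ⟨_, rfl⟩
  have hHf0 : ∀ j, 0 ≤ Hf j := fun j => by rw [hHf]; positivity
  have hHfi : Hf (i + 1) = Θ * (2 ^ (e + Gm) / 2 ^ g i) := by
    rw [hHf]
    have h4 : gg w g (i + 1) = g i := if_neg (by omega)
    simp only [h4]
  -- the gradients in the boxes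
  have hgr : ∀ j ≤ i + 1, ∀ b : ℕ → ℝ, Bxr (2 * (Z₂ * ρ₀)) (gg w g) (P v) j b → ∀ l, 1 ≤ l →
      l < j → |eval b (pderiv l (P v j))| ≤ Hf j := by
    intro j hj b hb l hl1 hl
    obtain ⟨j, rfl⟩ : ∃ j', j = j' + 1 := ⟨j - 1, by omega⟩
    obtain ⟨l, rfl⟩ : ∃ l', l = l' + 1 := ⟨l - 1, by omega⟩
    rw [← hR] at hb
    have h1 := hgrad m J F c w e g (G (ptr F J ω)) (P v) ω hw hc (fun i _ => h.degG _ i)
      (fun i => h.depG _ i) (fun i hi b hb l hl => h.lip ω (hBA ω hω) i hi b hb l hl) (htri v)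
      (hdeg v) hnrv (2 * R) (by linarith) j b hb (by omega) l (by omega)
    refine h1.trans ?_
    rw [← hΘ, hHf]
    have h4 : gg w g (j + 1) = g j := if_neg (by omega)
    simp only [h4]
    exact mul_le_mul_of_nonneg_left (hgG j (by omega) l (by omega)) (by linarith)
  have hsm : ∀ j ≤ i + 1, 1 ≤ j → 2 / 2 ^ J + j * (2 / 2 ^ J * Hf j) ≤
      Z₂ * ρ₀ / 2 ^ gg w g j := by
    intro j hj hj1
    obtain ⟨j, rfl⟩ : ∃ j', j = j' + 1 := ⟨j - 1, by omega⟩
    have h4 : gg w g (j + 1) = g j := if_neg (by omega)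
    rw [hHf]
    simp only [h4]
    rw [← hR, le_div_iff₀ (by positivity)]
    have h5 : (2 : ℝ) ^ g j ≤ 2 ^ (e + Gm) :=
      pow_le_pow_right₀ (by norm_num) ((hGm j (by omega)).trans (by omega))
    have h6 : (((j + 1 : ℕ) : ℝ)) ≤ i + 1 := by
      push_cast
      have : (j : ℝ) ≤ i := by exact_mod_cast (by omega : j ≤ i)
      linarith
    have h7 : (2 / 2 ^ J + ((j + 1 : ℕ) : ℝ) * (2 / 2 ^ J * (Θ * (2 ^ (e + Gm) / 2 ^ g j)))) *
        2 ^ g j = (2 * 2 ^ g j + ((j + 1 : ℕ) : ℝ) * (2 * (Θ * 2 ^ (e + Gm)))) / 2 ^ J := by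
      field_simp
    rw [h7, div_le_iff₀ h2J]
    have h8 : (0 : ℝ) ≤ 2 * (Θ * 2 ^ (e + Gm)) := by positivity
    have h9 := mul_le_mul_of_nonneg_right h6 h8
    have h10 : (2 * 2 ^ g j + ((j + 1 : ℕ) : ℝ) * (2 * (Θ * 2 ^ (e + Gm)))) ≤
        X * 2 ^ (e + Gm) := by
      have h11 : (0 : ℝ) < 2 ^ (e + Gm) := by positivity
      have h12 : (2 + (i + 1) * (2 * Θ)) * 2 ^ (e + Gm) ≤ X * 2 ^ (e + Gm) := by
        refine mul_le_mul_of_nonneg_right ?_ h11.le
        have e1 : 2 + ((i : ℝ) + 1) * (2 * Θ) = 2 + 2 * (i * Θ) + 2 * Θ := by ring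
        rw [e1]
        linarith only [hΘX, hΘ1]
      have e2 : (2 + ((i : ℝ) + 1) * (2 * Θ)) * 2 ^ (e + Gm) =
          2 * 2 ^ (e + Gm) + (i + 1) * (2 * (Θ * 2 ^ (e + Gm))) := by ring
      rw [e2] at h12
      linarith only [h12, h9, h5]
    exact h10.trans (hXJ.trans (le_mul_of_one_le_left h2J.le hR1))
  -- the line
  have hΦ0 : P v 0 = C (T / 2 ^ w) := by
    rw [hnrv.1]
    unfold Gs
    rw [sy_zero, tp_eq, hT]
  have hlu0 : lu F c ω 0 = 0 := if_pos rfl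
  have hld0 : ld F c ω 0 = 1 := if_pos rfl
  have hldb : ∀ j, |ld F c ω j| ≤ 1 := by
    intro j
    unfold ld
    split_ifs
    · rw [abs_one]
    · exact F.dir ω _
  have hlin : ∀ j, 1 ≤ j → j ≤ i + 1 → ∀ τ ∈ Set.Icc (0 : ℝ) 1,
      |eval (fun l => lu F c ω l + ld F c ω l * ((T + τ) / 2 ^ w)) (P v j) -
        (lu F c ω j + ld F c ω j * ((T + τ) / 2 ^ w))| ≤ ρ₀ / 2 ^ gg w g j := by
    intro j hj1 hj τ hτ
    obtain ⟨j, rfl⟩ : ∃ j', j = j' + 1 := ⟨j - 1, by omega⟩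
    have h1 := hB ω hω j (by omega) τ hτ
    rw [dv_line F c w (fun s => P (z' s) (j + 1)) j ω τ, ← hv, ← hT] at h1
    have h4 : gg w g (j + 1) = g j := if_neg (by omega)
    rw [h4, abs_sub_comm]
    exact h1
  obtain ⟨τ, hτ⟩ : ∃ τ : ℝ, τ = b none * 2 ^ w - T := ⟨_, rfl⟩
  have htn : bt F ω none = F.t ω := rfl
  have hτ2 : |τ| ≤ 2 := by
    have h1 := hb none
    rw [htn, t_rt F hw ω] at h1
    have e1 : ((slam F w ω).2.2 : ℝ) = T := by rw [hT]; rfl
    rw [e1] at h1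
    have h2 : (1 : ℝ) / 2 ^ J ≤ 1 / 2 ^ w := one_div_le_one_div_of_le h2w hwJ
    have h3 : |τ - rt F w ω| ≤ 1 := by
      have e2 : τ - rt F w ω = (b none - (T + rt F w ω) / 2 ^ w) * 2 ^ w := by
        rw [hτ]
        field_simp
        ring
      rw [e2, abs_mul, abs_of_pos h2w]
      calc |b none - (T + rt F w ω) / 2 ^ w| * 2 ^ w ≤ 1 / 2 ^ w * 2 ^ w :=
            mul_le_mul_of_nonneg_right (h1.trans h2) h2w.le
        _ = 1 := by field_simp
    have h4 := rt_mem F w ω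
    rw [abs_le] at h3 ⊢
    constructor <;> linarith [h3.1, h3.2, h4.1, h4.2]
  have hb0 : b none = (T + τ) / 2 ^ w := by
    rw [hτ]
    field_simp
    ring
  have h1 := (hball (P v) (gg w g) w (lu F c ω) (ld F c ω) T ρ₀ (2 / 2 ^ J) Hf (htri v) (hdeg v)
    hlu0 hld0 hldb (if_pos rfl) hΦ0 hρ1 (by positivity) hHf0 hlin hgr hsm τ hτ2).2 (pb c b)
    (by
      show (if 0 = 0 then b none else _) = _
      rw [if_pos rfl]
      exact hb0) (by
      intro j hj1 hj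
      obtain ⟨j, rfl⟩ : ∃ j', j = j' + 1 := ⟨j - 1, by omega⟩
      have e1 : pb c b (j + 1) = b (some (c j)) := if_neg (by omega)
      have e2 : lu F c ω (j + 1) = F.u ω (c j) := if_neg (by omega)
      have e3 : ld F c ω (j + 1) = F.d ω (c j) := if_neg (by omega)
      rw [e1, e2, e3, ← hb0]
      have h2 := hb (some (c j))
      have h3 := hb none
      rw [htn] at h3
      have e4 : bt F ω (some (c j)) = F.u ω (c j) + F.t ω * F.d ω (c j) := rfl
      rw [e4] at h2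
      have h4 : |F.d ω (c j) * (b none - F.t ω)| ≤ 1 * (1 / 2 ^ J) := by
        rw [abs_mul]
        exact mul_le_mul (F.dir ω _) h3 (abs_nonneg _) zero_le_one
      rw [one_mul] at h4
      have e5 : b (some (c j)) - (F.u ω (c j) + F.d ω (c j) * b none) =
          (b (some (c j)) - (F.u ω (c j) + F.t ω * F.d ω (c j))) -
            F.d ω (c j) * (b none - F.t ω) := by ring
      have e6 : (2 : ℝ) / 2 ^ J = 1 / 2 ^ J + 1 / 2 ^ J := by ring
      rw [e5, e6]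
      exact (abs_sub _ _).trans (add_le_add h2 h4))
  rw [← hR] at h1
  obtain ⟨hbx, htime⟩ := h1
  have hq0 : (0 : ℝ) ≤ 2 ^ (e + Gm) / 2 ^ g i := by positivity
  have hq1 : (0 : ℝ) ≤ 2 ^ w / 2 ^ g i := by positivity
  have hfin0 : Θ * (2 ^ (e + Gm) / 2 ^ g i) ≤
      X * (1 + 2 ^ (e + Gm) / 2 ^ g i + 2 ^ w / 2 ^ g i) := by
    have h2 : Θ ≤ X := by linarith only [hΘX, hiΘ, hΘ1]
    have h3 := mul_le_mul_of_nonneg_right h2 hq0
    have h4 := mul_nonneg hX0 hq1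
    have e1 : X * (1 + 2 ^ (e + Gm) / 2 ^ g i + 2 ^ w / 2 ^ g i) =
        X + X * (2 ^ (e + Gm) / 2 ^ g i) + X * (2 ^ w / 2 ^ g i) := by ring
    rw [e1]
    linarith only [h3, h4, hX0]
  by_cases ho : ∃ l < i + 1, vo c l = o
  · obtain ⟨l, hl, rfl⟩ := ho
    rw [pd_tb_at hc (by omega) (htri v (i + 1)) hl b]
    rcases Nat.eq_zero_or_pos l with rfl | hl1
    · refine htime.trans ?_
      have h4 : gg w g (i + 1) = g i := if_neg (by omega)
      rw [hHfi, h4]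
      have e1 : Z₂ * (2 * R) / 2 ^ g i * 2 ^ w = 2 * Z₂ * R * (2 ^ w / 2 ^ g i) := by ring
      rw [e1]
      push_cast
      have h6 : ((i : ℝ) + 1) * Θ ≤ X := by
        have e3 : ((i : ℝ) + 1) * Θ = i * Θ + Θ := by ring
        rw [e3]
        linarith only [hΘX, hiΘ, hΘ1]
      have h7 : 2 * Z₂ * R ≤ X := by
        have e3 : 4 * Z₂ * R = 2 * (2 * Z₂ * R) := by ring
        rw [e3] at hZRX hZR
        linarith only [hZRX, hZR]
      have h8 := mul_le_mul_of_nonneg_right h6 hq0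
      have h9 := mul_le_mul_of_nonneg_right h7 hq1
      have e3 : X * (1 + 2 ^ (e + Gm) / 2 ^ g i + 2 ^ w / 2 ^ g i) =
          X + X * (2 ^ (e + Gm) / 2 ^ g i) + X * (2 ^ w / 2 ^ g i) := by ring
      have e4 : ((i : ℝ) + 1) * (Θ * (2 ^ (e + Gm) / 2 ^ g i)) =
          ((i : ℝ) + 1) * Θ * (2 ^ (e + Gm) / 2 ^ g i) := by ring
      rw [e3, e4]
      linarith only [h8, h9, hX1]
    · refine (hgr (i + 1) le_rfl (pb c b) (by rw [← hR]; exact hbx) l hl1 hl).trans ?_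
      rw [hHfi]
      exact hfin0
  · push Not at ho
    rw [pd_tb_ne (htri v (i + 1)) ho, abs_zero]
    positivity

end Pool.EXT96
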