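import Pool.Agent.H5.M3F.Gr2

/-!
# Derivatives of closed polynomials in the directions of the coordinates, natural exponents

`pd_natT`: derivatives on dilated natural boxes. `grad_n`: the derivatives of the closed
polynomials on all dilated boxes, with the natural exponents of the chain.
-/

set_option autoImplicit false

namespace Pool.EXT96

open Finset Real MvPolynomial
open Pool.Agent.H49.Ent Pool.Agent.H32.Dense Pool.STK Pool.KA Pool.KSAT Pool.K2S Pool.PB Pool.GEN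
open Pool.STAT Pool.STAT.CLO Pool.M3F

/-- **Derivatives on dilated natural boxes.** -/
theorem pd_natT (n K : ℕ) : ∃ C₀ : ℝ, 1 ≤ C₀ ∧ ∀ (Φ : ℕ → PN) (g : ℕ → ℕ) (F : PN) (i : ℕ)
    (S T ρ : ℝ) (l : ℕ) (b : ℕ → ℝ), TriN Φ → (∀ j, (Φ j).totalDegree ≤ K) → i ≤ n →
    F.vars ⊆ range i → F.totalDegree ≤ K → (∀ b, Bxr 1 g Φ i b → |eval b F| ≤ S) → 1 ≤ ρ →
    Bxr ρ g Φ i b → 0 ≤ T → (l < i → 2 ^ g l ≤ T) →
    (∀ j, l < j → j < i → 2 ^ g j * |eval b (pderiv l (Φ j))| ≤ T) →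
    |eval b (pderiv l F)| ≤ C₀ * S * ρ ^ (K * (K + 1) ^ (n + 1)) * T := by
  classical
  obtain ⟨C, hC, hn⟩ := n1_of_box n K
  obtain ⟨K₁, hK₁⟩ : ∃ K₁, K₁ = K * (K + 1) ^ (n + 1) := ⟨_, rfl⟩
  refine ⟨n * (K₁ * C) + 1, by
    have : 0 ≤ n * (K₁ * C) := by positivity
    linarith, ?_⟩
  rw [← hK₁]
  intro Φ g F i S T ρ l b hΦ hK hi hv hF hS hρ hb hT hTl hl
  obtain ⟨h2, h3⟩ := nat_deg hΦ hK g hi hv hF
  rw [← hK₁] at h3
  have hnS := hn Φ g F i S hΦ hK hi hv hF hS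
  have hS0 : 0 ≤ S := (abs_nonneg _).trans (hS _ (box_nuc hΦ g (fun _ => (0 : ℝ))
    (ρ := 1) fun j _ => by
      rw [abs_zero]
      exact zero_le_one))
  -- the curve in natural coordinates
  have hy : ∀ j, HasDerivAt (fun s => nc g Φ (Function.update b l s) j)
      ((2 : ℝ) ^ g j * ((if j = l then 1 else 0) - eval b (pderiv l (Φ j)))) (b l) := by
    intro j
    unfold nc
    refine HasDerivAt.const_mul _ (HasDerivAt.sub ?_ (curve_upd b l (Φ j)))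
    by_cases hj : j = l
    · subst hj
      simp only [Function.update_self, if_true]
      exact hasDerivAt_id _
    · simp only [Function.update_of_ne hj, if_neg hj]
      exact hasDerivAt_const _ _
  have h4 := curve_sum hy h2
  have h5 : (fun s => eval (nc g Φ (Function.update b l s)) (bind₁ (nuc g Φ) F)) =
      fun s => eval (Function.update b l s) F := by
    funext s
    rw [← eval_nat hΦ g _ F]
  rw [h5] at h4
  have h6 := h4.unique (curve_upd b l F)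
  rw [← h6]
  rw [Function.update_eq_self]
  refine (Finset.abs_sum_le_sum_abs _ _).trans ?_
  have h7 : ∀ j ∈ range i, |(2 : ℝ) ^ g j * ((if j = l then 1 else 0) - eval b (pderiv l (Φ j))) *
      eval (nc g Φ b) (pderiv j (bind₁ (nuc g Φ) F))| ≤
      T * (K₁ * (C * S) * ρ ^ K₁) := by
    intro j hj
    have hj' := mem_range.1 hj
    have h8 : |eval (nc g Φ b) (pderiv j (bind₁ (nuc g Φ) F))| ≤ K₁ * (C * S) * ρ ^ K₁ := by
      refine (NEAR.pd_le hρ h2 h3 (fun j' hj' => nc_le.2 (hb j' hj')) j).trans ?_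
      refine mul_le_mul_of_nonneg_right (mul_le_mul_of_nonneg_left hnS (Nat.cast_nonneg _))
        (by positivity)
    rw [abs_mul]
    refine mul_le_mul ?_ h8 (abs_nonneg _) hT
    rw [abs_mul, abs_of_pos (by positivity : (0 : ℝ) < 2 ^ g j)]
    rcases lt_trichotomy j l with h9 | h9 | h9
    · have h10 : pderiv l (Φ j) = 0 := by
        refine pderiv_eq_zero_of_notMem_vars fun hcon => ?_
        have := mem_range.1 (hΦ j hcon)
        omega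
      rw [if_neg h9.ne, h10, map_zero, sub_zero, abs_zero, mul_zero]
      exact hT
    · subst h9
      have h10 : pderiv j (Φ j) = 0 := by
        refine pderiv_eq_zero_of_notMem_vars fun hcon => ?_
        have := mem_range.1 (hΦ j hcon)
        omega
      rw [if_pos rfl, h10, map_zero, sub_zero, abs_one, mul_one]
      exact hTl hj'
    · rw [if_neg h9.ne', zero_sub, abs_neg]
      exact hl j h9 hj'
  refine (Finset.sum_le_sum h7).trans ?_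
  rw [Finset.sum_const, card_range, nsmul_eq_mul]
  have h8 : (i : ℝ) ≤ n := by exact_mod_cast hi
  have h9 : (0 : ℝ) ≤ T * (K₁ * (C * S) * ρ ^ K₁) := by positivity
  have h10 : (0 : ℝ) ≤ S * ρ ^ K₁ * T := by positivity
  calc (i : ℝ) * (T * (K₁ * (C * S) * ρ ^ K₁)) ≤
      n * (T * (K₁ * (C * S) * ρ ^ K₁)) := mul_le_mul_of_nonneg_right h8 h9
    _ = n * (K₁ * C) * (S * ρ ^ K₁ * T) := by ring
    _ ≤ (n * (K₁ * C) + 1) * (S * ρ ^ K₁ * T) :=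
        mul_le_mul_of_nonneg_right (by linarith) h10
    _ = (n * (K₁ * C) + 1) * S * ρ ^ K₁ * T := by ring

/-- The natural exponent and the precision. -/
theorem nlp_add {g : ℕ → ℕ} {l i : ℕ} (h : l ≤ i) : nlp g l i + g i = (Finset.Icc l i).sup g := by
  unfold nlp
  have h1 : g i ≤ (Finset.Icc l i).sup g := Finset.le_sup (f := g) (Finset.mem_Icc.2 ⟨h, le_rfl⟩)
  omega

/-- **The derivatives of the closed polynomials** in the directions of the coordinates, with the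
natural exponents. -/
theorem grad_n (n K K' : ℕ) (hK' : 1 ≤ K') : ∃ (C₀ : ℝ) (M : ℕ), 1 ≤ C₀ ∧
    ∀ (m J : ℕ) (F : Fam m J) (c : ℕ → Fin m) (a e : ℕ) (g : ℕ → ℕ)
    (G : ℕ → MvPolynomial (Option (Fin m)) ℝ) (P : ℕ → PN) (ω : F.Ω), a ≤ J → Inj c n →
    (∀ i < n, (G i).totalDegree ≤ K) → (∀ i, DepC c i (G i)) →
    (∀ i < n, ∀ b : Option (Fin m) → ℝ, NBx c G g a (F.t ω) i b → ∀ l < i,
      |eval b (pderiv (some (c l)) (G i))| ≤ 2 ^ (e + nlp g l i)) →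
    (∀ i, (P i).vars ⊆ range i) → (∀ i, (P i).totalDegree ≤ K') →
    Nr K' 1 (gg a g) P (sy c n ((F.T1 a ω : ℝ) / 2 ^ a) G) (n + 1) →
    ∀ ρ : ℝ, 1 ≤ ρ → ∀ (i : ℕ) (b : ℕ → ℝ), Bxr ρ (gg a g) P (i + 1) b → i < n →
    ∀ l < i, |eval b (pderiv (l + 1) (P (i + 1)))| ≤ C₀ * ρ ^ M * 2 ^ (e + nlp g l i) := by
  obtain ⟨K₂, hK₂⟩ : ∃ K₂, K₂ = max K K' := ⟨_, rfl⟩
  obtain ⟨C₁, hC₁, hdil⟩ := dil n K₂
  obtain ⟨C₂, hC₂, hpd⟩ := pd_natT n K₂
  obtain ⟨K₁, hK₁⟩ : ∃ K₁, K₁ = K₂ * (K₂ + 1) ^ (n + 1) := ⟨_, rfl⟩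
  rw [← hK₁] at hdil hpd
  obtain ⟨M, hM⟩ := cc_le K' n
  have hK1 : (1 : ℝ) ≤ K' := by exact_mod_cast hK'
  obtain ⟨Q, hQ⟩ : ∃ Q : ℝ, Q = 2 * (2 * K') ^ M := ⟨_, rfl⟩
  have hQ1 : 1 ≤ Q := by
    rw [hQ]
    have : (1 : ℝ) ≤ (2 * K') ^ M := one_le_pow₀ (by linarith)
    linarith
  obtain ⟨S, hS⟩ : ∃ S : ℝ, S = (K' * 1 * 1 : ℝ) ^ K' := ⟨_, rfl⟩
  have hS0 : 0 ≤ S := by
    rw [hS]
    positivity
  refine ⟨C₁ * Q ^ K₁ * (1 + C₂ * S * Q ^ K₁), M * K₁ + M * K₁, by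
    have h1 : (1 : ℝ) ≤ Q ^ K₁ := one_le_pow₀ hQ1
    have h2 : (1 : ℝ) ≤ C₁ * Q ^ K₁ := by nlinarith
    have h3 : 0 ≤ C₂ * S * Q ^ K₁ := by positivity
    nlinarith, ?_⟩
  intro m J F c a e g G P ω ha hc hGK hdep hlip hPv hPd hNr ρ hρ i b hb hi l hl
  obtain ⟨Θ, hΘ⟩ : ∃ Θ : ℝ, Θ = 2 * K' * 1 * ρ := ⟨_, rfl⟩
  have hΘ1 : 1 ≤ Θ := by
    rw [hΘ]
    nlinarith
  obtain ⟨ρ₁, hρ₁⟩ : ∃ ρ₁ : ℝ, ρ₁ = Θ ^ M := ⟨_, rfl⟩
  have hρ₁1 : 1 ≤ ρ₁ := by
    rw [hρ₁]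
    exact one_le_pow₀ hΘ1
  have hρQ : ρ₁ + 1 ≤ Q * ρ ^ M := by
    have h1 : ρ₁ = (2 * K') ^ M * ρ ^ M := by
      rw [hρ₁, hΘ, ← mul_pow]
      congr 1
      ring
    have h2 : Q * ρ ^ M = 2 * ρ₁ := by
      rw [h1, hQ]
      ring
    linarith
  have hρM : 1 ≤ ρ ^ M := one_le_pow₀ hρ
  obtain ⟨L₁, hL₁⟩ : ∃ L₁ : ℝ, L₁ = C₁ * (ρ₁ + 1) ^ K₁ := ⟨_, rfl⟩
  have hL₁1 : 1 ≤ L₁ := by
    rw [hL₁]
    have : (1 : ℝ) ≤ (ρ₁ + 1) ^ K₁ := one_le_pow₀ (by linarith)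
    nlinarith
  have hL₁0 : 0 ≤ L₁ := by linarith
  obtain ⟨Ψ, hΨ⟩ : ∃ Ψ, Ψ = sy c n ((F.T1 a ω : ℝ) / 2 ^ a) G := ⟨_, rfl⟩
  rw [← hΨ] at hNr
  have hΨt : TriN Ψ := by
    rw [hΨ]
    exact sy_tri
  have hΨd : ∀ j, (Ψ j).totalDegree ≤ K₂ := fun j => by
    rw [hΨ]
    exact (sy_deg hGK j).trans (by rw [hK₂]; exact le_max_left _ _)
  -- the boxes
  have box1 : ∀ j ≤ i + 1, Bxr ρ₁ (gg a g) Ψ j b := by
    intro j hj
    have h1 := Nr.box hK' le_rfl (hNr.mono (show i + 1 ≤ n + 1 by omega)) hρ hb j hj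
    refine h1.mono ?_ le_rfl
    rw [hρ₁, ← hΘ]
    exact pow_le_pow_right₀ hΘ1 (hM j (by omega))
  have box2 : ∀ j ≤ i + 1, Bxr (ρ₁ + 1) (gg a g) (sy c n (F.t ω) G) j b := by
    intro j hj l' hl'
    have h1 := box1 j hj l' hl'
    rcases Nat.eq_zero_or_pos l' with rfl | hl0
    · rw [hΨ, sy_zero, eval_C] at h1
      rw [sy_zero, eval_C]
      have h3 : gg a g 0 = a := if_pos rfl
      rw [h3] at h1 ⊢
      have h2 := t_cell F ha ω
      have h5 : (ρ₁ + 1) / 2 ^ a = ρ₁ / 2 ^ a + 1 / 2 ^ a := by ring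
      rw [h5]
      rw [abs_le] at h1 h2 ⊢
      constructor <;> linarith [h1.1, h1.2, h2.1, h2.2]
    · obtain ⟨l', rfl⟩ : ∃ j', l' = j' + 1 := ⟨l' - 1, by omega⟩
      rw [hΨ, sy_succ (by omega)] at h1
      rw [sy_succ (by omega)]
      exact h1.trans (div_le_div_of_nonneg_right (by linarith) (by positivity))
  -- the derivatives of the point side
  have hpt : ∀ j ≤ i, l < j → |eval b (pderiv (l + 1) (Ψ (j + 1)))| ≤ L₁ * 2 ^ (e + nlp g l j) := by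
    intro j hj hl
    have h3 : Ψ (j + 1) = tr c j (G j) := by
      rw [hΨ]
      exact sy_succ (by omega)
    have h4 : ∀ b : ℕ → ℝ, Bxr 1 (gg a g) (sy c n (F.t ω) G) (j + 1) b →
        |eval b (pderiv (l + 1) (tr c j (G j)))| ≤ 2 ^ (e + nlp g l j) := by
      intro b hb
      have h5 := nbx_of_bxr hc hdep (by omega) hb
      have h6 := hlip j (by omega) _ h5 l (by omega)
      rw [pd_tr hc (by omega) (by omega)]
      unfold tr
      rw [AdxRow.evl_bnd]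
      exact h6
    rw [h3]
    refine (hdil (sy c n (F.t ω) G) (gg a g) (pderiv (l + 1) (tr c j (G j))) (j + 1)
      (2 ^ (e + nlp g l j)) (ρ₁ + 1) sy_tri
      (fun i => (sy_deg hGK i).trans (by rw [hK₂]; exact le_max_left _ _)) (by omega)
      ((NEAR.vars_pd _ _).trans (tr_vars _ _ _))
      (NEAR.deg_pd ((tr_deg _ _ _).trans ((hGK j (by omega)).trans
        (by rw [hK₂]; exact le_max_left _ _))) _) (by linarith) h4 b
        (box2 (j + 1) (by omega))).trans (le_of_eq ?_)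
    rw [hL₁]
    ring
  -- the difference
  have hF : ∀ b : ℕ → ℝ, Bxr 1 (gg a g) Ψ (i + 1) b →
      |eval b (P (i + 1) - Ψ (i + 1))| ≤ S / 2 ^ g i := by
    intro b hb
    have h3 := hNr.2 (i + 1) (by omega) (by omega) 1 le_rfl b hb
    have h4 : gg a g (i + 1) = g i := if_neg (by omega)
    rw [h4, ← hS] at h3
    rw [map_sub]
    exact h3
  have hsup : ∀ j ≤ i, l ≤ j → (Finset.Icc l j).sup g ≤ nlp g l i + g i := by
    intro j hj hlj
    rw [nlp_add hl.le]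
    exact Finset.sup_mono (Finset.Icc_subset_Icc le_rfl hj)
  have h5 := hpd Ψ (gg a g) (P (i + 1) - Ψ (i + 1)) (i + 1) (S / 2 ^ g i)
    (L₁ * 2 ^ (e + (nlp g l i + g i))) ρ₁ (l + 1) b hΨt hΨd (by omega)
    (AdxRow.vars_sub_le (hPv _) (hΨt _))
    ((totalDegree_sub _ _).trans (max_le ((hPd _).trans (by rw [hK₂]; exact le_max_right _ _))
      (hΨd _))) hF hρ₁1 (box1 (i + 1) le_rfl) (by positivity) (fun h1 => by
      have h4 : gg a g (l + 1) = g l := if_neg (by omega)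
      rw [h4]
      have h6 : g l ≤ nlp g l i + g i := by
        refine le_trans ?_ (hsup l hl.le le_rfl)
        exact Finset.le_sup (f := g) (Finset.mem_Icc.2 ⟨le_rfl, le_rfl⟩)
      have h7 : (2 : ℝ) ^ g l ≤ 2 ^ (e + (nlp g l i + g i)) :=
        pow_le_pow_right₀ (by norm_num) (by omega)
      have h8 : (0 : ℝ) ≤ 2 ^ (e + (nlp g l i + g i)) := by positivity
      nlinarith)
    (fun j h1 h2 => by
      obtain ⟨j, rfl⟩ : ∃ j', j = j' + 1 := ⟨j - 1, by omega⟩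
      have h4 : gg a g (j + 1) = g j := if_neg (by omega)
      rw [h4]
      have h6 := hpt j (by omega) (by omega)
      have h7 : (2 : ℝ) ^ g j * |eval b (pderiv (l + 1) (Ψ (j + 1)))| ≤
          2 ^ g j * (L₁ * 2 ^ (e + nlp g l j)) := mul_le_mul_of_nonneg_left h6 (by positivity)
      refine h7.trans ?_
      have h8 : (2 : ℝ) ^ g j * (L₁ * 2 ^ (e + nlp g l j)) = L₁ * 2 ^ (e + (nlp g l j + g j)) := by
        rw [← Nat.add_assoc, pow_add _ _ (g j)]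
        ring
      rw [h8]
      refine mul_le_mul_of_nonneg_left (pow_le_pow_right₀ (by norm_num) ?_) hL₁0
      have h9 := hsup j (by omega) (by omega)
      rw [← nlp_add (by omega : l ≤ j)] at h9
      omega)
  have h6 := hpt i le_rfl hl
  have h7 : |eval b (pderiv (l + 1) (P (i + 1)))| ≤ |eval b (pderiv (l + 1) (Ψ (i + 1)))| +
      |eval b (pderiv (l + 1) (P (i + 1) - Ψ (i + 1)))| := by
    have h8 : eval b (pderiv (l + 1) (P (i + 1))) = eval b (pderiv (l + 1) (Ψ (i + 1))) +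
        eval b (pderiv (l + 1) (P (i + 1) - Ψ (i + 1))) := by
      rw [map_sub, map_sub]
      ring
    rw [h8]
    exact abs_add_le _ _
  refine h7.trans ((add_le_add h6 h5).trans ?_)
  have h9 : C₂ * (S / 2 ^ g i) * ρ₁ ^ K₁ * (L₁ * 2 ^ (e + (nlp g l i + g i))) =
      C₂ * S * ρ₁ ^ K₁ * L₁ * 2 ^ (e + nlp g l i) := by
    rw [← Nat.add_assoc, pow_add _ _ (g i)]
    field_simp
  rw [h9]
  have hL : L₁ ≤ C₁ * Q ^ K₁ * ρ ^ (M * K₁) := by
    rw [hL₁, pow_mul, mul_assoc, ← mul_pow]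
    exact mul_le_mul_of_nonneg_left (pow_le_pow_left₀ (by linarith) hρQ _) (by linarith)
  have hR : ρ₁ ^ K₁ ≤ Q ^ K₁ * ρ ^ (M * K₁) := by
    rw [pow_mul, ← mul_pow]
    exact pow_le_pow_left₀ (by linarith) (by linarith) _
  have hρ2 : 1 ≤ ρ ^ (M * K₁) := one_le_pow₀ hρ
  have p0 : (0 : ℝ) ≤ 2 ^ (e + nlp g l i) := by positivity
  have hfin : L₁ + C₂ * S * ρ₁ ^ K₁ * L₁ ≤
      C₁ * Q ^ K₁ * (1 + C₂ * S * Q ^ K₁) * ρ ^ (M * K₁ + M * K₁) := by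
    have q1 : L₁ + C₂ * S * ρ₁ ^ K₁ * L₁ = (1 + C₂ * S * ρ₁ ^ K₁) * L₁ := by ring
    have q2 : 1 + C₂ * S * ρ₁ ^ K₁ ≤ (1 + C₂ * S * Q ^ K₁) * ρ ^ (M * K₁) := by
      have q3 : C₂ * S * ρ₁ ^ K₁ ≤ C₂ * S * (Q ^ K₁ * ρ ^ (M * K₁)) :=
        mul_le_mul_of_nonneg_left hR (by positivity)
      have q4 : (1 + C₂ * S * Q ^ K₁) * ρ ^ (M * K₁) =
          ρ ^ (M * K₁) + C₂ * S * (Q ^ K₁ * ρ ^ (M * K₁)) := by ring
      linarith
    rw [q1]
    calc (1 + C₂ * S * ρ₁ ^ K₁) * L₁ ≤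
        (1 + C₂ * S * Q ^ K₁) * ρ ^ (M * K₁) * (C₁ * Q ^ K₁ * ρ ^ (M * K₁)) :=
          mul_le_mul q2 hL hL₁0 (by positivity)
      _ = _ := by
        rw [pow_add]
        ring
  calc L₁ * 2 ^ (e + nlp g l i) + C₂ * S * ρ₁ ^ K₁ * L₁ * 2 ^ (e + nlp g l i) =
      (L₁ + C₂ * S * ρ₁ ^ K₁ * L₁) * 2 ^ (e + nlp g l i) := by ring
    _ ≤ _ := mul_le_mul_of_nonneg_right hfin p0

end Pool.EXT96
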