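import Pool.Agent.H96.EXT.Grd
import Pool.Agent.H20.KAL.TAY

/-!
# Closed polynomials near a line

`ext_int`: polynomials of one variable outside the interval. `box_pert`: natural boxes after a small
change of the coordinates. `ball_core`: if a line is near the graphs of the closed polynomials in a
window, then the points near the line are in the dilated natural boxes, and the derivatives of the
closed polynomials, also in the time, are bounded there.
-/

set_option autoImplicit false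

namespace Pool.EXT96

open Finset Real MvPolynomial
open Pool.STAT Pool.STAT.CLO Pool.M3F

/-- **A polynomial of bounded degree near the unit interval.** -/
theorem ext_int (K : ℕ) : ∃ C : ℝ, 1 ≤ C ∧ ∀ (q : Polynomial ℝ) (A : ℝ), q.natDegree ≤ K →
    (∀ τ ∈ Set.Icc (0 : ℝ) 1, |q.eval τ| ≤ A) → ∀ τ : ℝ, |τ| ≤ 2 →
      |q.eval τ| ≤ C * A ∧ |q.derivative.eval τ| ≤ C * A := by
  obtain ⟨C₀, hC₀, hcf⟩ := Pool.KAL.TAY.coef_bound K
  refine ⟨1 + (K + 1) * ((K + 1) * (C₀ * 2 ^ K)), by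
    have : 0 ≤ ((K : ℝ) + 1) * ((K + 1) * (C₀ * 2 ^ K)) := by positivity
    linarith, ?_⟩
  intro q A hq hA τ hτ
  have hA0 : 0 ≤ A := (abs_nonneg _).trans (hA 0 ⟨le_rfl, zero_le_one⟩)
  have hc := hcf q A hq fun t h1 h2 => hA t ⟨h1, h2⟩
  have hpow : ∀ j ≤ K, |τ| ^ j ≤ 2 ^ K := fun j hj =>
    (pow_le_pow_left₀ (abs_nonneg _) hτ j).trans (pow_le_pow_right₀ (by norm_num) hj)
  have hK1 : (1 : ℝ) ≤ (K : ℝ) + 1 := by
    have : (0 : ℝ) ≤ K := Nat.cast_nonneg K
    linarith
  have hS : (0 : ℝ) ≤ C₀ * A * 2 ^ K := by positivity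
  have hfin : ((K : ℝ) + 1) * ((K + 1) * (C₀ * A * 2 ^ K)) ≤
      (1 + (K + 1) * ((K + 1) * (C₀ * 2 ^ K))) * A := by
    have e : (1 + ((K : ℝ) + 1) * ((K + 1) * (C₀ * 2 ^ K))) * A =
        A + (K + 1) * ((K + 1) * (C₀ * A * 2 ^ K)) := by ring
    rw [e]
    linarith
  constructor
  · rw [Polynomial.eval_eq_sum_range' (show q.natDegree < K + 1 by omega)]
    refine (Finset.abs_sum_le_sum_abs _ _).trans ?_
    have h1 : ∀ j ∈ range (K + 1), |q.coeff j * τ ^ j| ≤ C₀ * A * 2 ^ K := by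
      intro j hj
      have hj' : j ≤ K := by
        have := mem_range.1 hj
        omega
      rw [abs_mul, abs_pow]
      exact mul_le_mul (hc j hj') (hpow j hj') (by positivity) (by positivity)
    refine (Finset.sum_le_sum h1).trans ?_
    rw [Finset.sum_const, card_range, nsmul_eq_mul]
    push_cast
    refine le_trans ?_ hfin
    refine mul_le_mul_of_nonneg_left ?_ (by positivity)
    calc C₀ * A * 2 ^ K = 1 * (C₀ * A * 2 ^ K) := (one_mul _).symm
      _ ≤ _ := mul_le_mul_of_nonneg_right hK1 hS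
  · have hd : q.derivative.natDegree < K + 1 := by
      have := Polynomial.natDegree_derivative_le q
      omega
    rw [Polynomial.eval_eq_sum_range' hd]
    refine (Finset.abs_sum_le_sum_abs _ _).trans ?_
    have h1 : ∀ j ∈ range (K + 1), |q.derivative.coeff j * τ ^ j| ≤ (K + 1) * (C₀ * A * 2 ^ K) := by
      intro j hj
      have hj' : j ≤ K := by
        have := mem_range.1 hj
        omega
      rw [Polynomial.coeff_derivative, abs_mul, abs_mul, abs_pow]
      rcases Nat.lt_or_ge j K with h2 | h2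
      · have h3 : |((j : ℝ) + 1)| ≤ K + 1 := by
          rw [abs_of_nonneg (by positivity)]
          have : (j : ℝ) ≤ K := by exact_mod_cast hj'
          linarith
        calc |q.coeff (j + 1)| * |((j : ℝ) + 1)| * |τ| ^ j ≤ (C₀ * A) * (K + 1) * 2 ^ K := by
              refine mul_le_mul (mul_le_mul (hc (j + 1) h2) h3 (abs_nonneg _) (by positivity))
                (hpow j hj') (by positivity) (by positivity)
          _ = _ := by ring
      · have h3 : q.coeff (j + 1) = 0 := Polynomial.coeff_eq_zero_of_natDegree_lt (by omega)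
        rw [h3, abs_zero, zero_mul, zero_mul]
        positivity
    refine (Finset.sum_le_sum h1).trans ?_
    rw [Finset.sum_const, card_range, nsmul_eq_mul]
    push_cast
    exact hfin

/-- The mean value theorem on a segment. -/
theorem seg_le {Q : PN} {i : ℕ} {H β : ℝ} (hv : Q.vars ⊆ range i) {x b : ℕ → ℝ} (h0 : b 0 = x 0)
    (hb : ∀ j, 1 ≤ j → j < i → |b j - x j| ≤ β) (hH : 0 ≤ H) (hβ : 0 ≤ β)
    (hgr : ∀ s ∈ Set.Icc (0 : ℝ) 1, ∀ l, 1 ≤ l → l < i →
      |eval (fun j => x j + s * (b j - x j)) (pderiv l Q)| ≤ H) :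
    |eval b Q - eval x Q| ≤ i * (β * H) := by
  have hy : ∀ s : ℝ, ∀ j, HasDerivAt (fun s => (fun s j => x j + s * (b j - x j)) s j)
      (b j - x j) s := by
    intro s j
    have h1 := ((hasDerivAt_id s).mul_const (b j - x j)).const_add (x j)
    refine h1.congr_deriv ?_
    rw [one_mul]
  have h1 : ∀ s : ℝ, HasDerivAt (fun s => eval (fun j => x j + s * (b j - x j)) Q)
      (∑ j ∈ range i, (b j - x j) * eval (fun j => x j + s * (b j - x j)) (pderiv j Q)) s :=
    fun s => curve_sum (x := fun s j => x j + s * (b j - x j)) (hy s) hv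
  have h2 := norm_image_sub_le_of_norm_deriv_le_segment_01'
    (f := fun s => eval (fun j => x j + s * (b j - x j)) Q) (C := i * (β * H))
    (fun s _ => (h1 s).hasDerivWithinAt) (by
      intro s hs
      rw [Real.norm_eq_abs]
      refine (Finset.abs_sum_le_sum_abs _ _).trans ?_
      have h3 : ∀ j ∈ range i, |(b j - x j) * eval (fun j => x j + s * (b j - x j))
          (pderiv j Q)| ≤ β * H := by
        intro j hj
        rw [abs_mul]
        rcases Nat.eq_zero_or_pos j with rfl | h4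
        · rw [h0, sub_self, abs_zero, zero_mul]
          positivity
        · exact mul_le_mul (hb j h4 (mem_range.1 hj))
            (hgr s ⟨hs.1, hs.2.le⟩ j h4 (mem_range.1 hj)) (abs_nonneg _) hβ
      refine (Finset.sum_le_sum h3).trans ?_
      rw [Finset.sum_const, card_range, nsmul_eq_mul])
  rw [Real.norm_eq_abs] at h2
  have e1 : (fun j => x j + (1 : ℝ) * (b j - x j)) = b := by
    funext j
    ring
  have e2 : (fun j => x j + (0 : ℝ) * (b j - x j)) = x := by
    funext j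
    ring
  rw [e1, e2] at h2
  exact h2

/-- **Natural boxes after a small change of the coordinates.** -/
theorem box_pert {Φ : ℕ → PN} {g : ℕ → ℕ} {n : ℕ} {R β : ℝ} {H : ℕ → ℝ} (hΦ : TriN Φ)
    (hR : 0 ≤ R) (hβ : 0 ≤ β) (hH0 : ∀ j, 0 ≤ H j)
    (hgr : ∀ j < n, ∀ b : ℕ → ℝ, Bxr (2 * R) g Φ j b → ∀ l, 1 ≤ l → l < j →
      |eval b (pderiv l (Φ j))| ≤ H j)
    (hH : ∀ j < n, 1 ≤ j → β + j * (β * H j) ≤ R / 2 ^ g j) {x : ℕ → ℝ} (hx : Bxr R g Φ n x) :
    ∀ b : ℕ → ℝ, b 0 = x 0 → (∀ j, 1 ≤ j → j < n → |b j - x j| ≤ β) → Bxr (2 * R) g Φ n b := by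
  have main : ∀ n' ≤ n, ∀ b : ℕ → ℝ, b 0 = x 0 → (∀ j, 1 ≤ j → j < n' → |b j - x j| ≤ β) →
      Bxr (2 * R) g Φ n' b := by
    intro n'
    induction n' with
    | zero => exact fun _ b _ _ j hj => absurd hj (Nat.not_lt_zero j)
    | succ n' ih =>
      intro hn b h0 hb j hj
      have hb' := ih (by omega) b h0 fun j h1 h2 => hb j h1 (by omega)
      rcases Nat.lt_or_ge j n' with h1 | h1
      · exact hb' j h1
      have hj' : j = n' := by omega
      subst hj'
      have h2 : |eval b (Φ j) - eval x (Φ j)| ≤ j * (β * H j) := by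
        refine seg_le (hΦ j) h0 (fun l h3 h4 => hb l h3 (by omega)) (hH0 j) hβ ?_
        intro s hs l h3 h4
        refine hgr j (by omega) _ ?_ l h3 h4
        refine ih (by omega) _ ?_ ?_
        · show x 0 + s * (b 0 - x 0) = x 0
          rw [h0]
          ring
        · intro l' h5 h6
          show |x l' + s * (b l' - x l') - x l'| ≤ β
          have e : x l' + s * (b l' - x l') - x l' = s * (b l' - x l') := by ring
          rw [e, abs_mul, abs_of_nonneg hs.1]
          calc s * |b l' - x l'| ≤ 1 * β :=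
                mul_le_mul hs.2 (hb l' h5 (by omega)) (abs_nonneg _) zero_le_one
            _ = β := one_mul _
      have h3 := hx j (by omega)
      rcases Nat.eq_zero_or_pos j with h4 | h4
      · subst h4
        have h5 : |eval b (Φ 0) - eval x (Φ 0)| ≤ 0 := by
          simpa using h2
        have h6 : eval b (Φ 0) = eval x (Φ 0) := by
          have := abs_nonpos_iff.1 h5
          linarith
        rw [h0, h6]
        refine h3.trans (div_le_div_of_nonneg_right (by linarith) (by positivity))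
      · have h5 := hH j (by omega) h4
        have h6 := hb j h4 (by omega)
        have e : 2 * R / 2 ^ g j = R / 2 ^ g j + R / 2 ^ g j := by ring
        rw [e]
        rw [abs_le] at h2 h3 h6 ⊢
        constructor <;> linarith [h2.1, h2.2, h3.1, h3.2, h6.1, h6.2]
  exact fun b h0 hb => main n le_rfl b h0 hb

/-- **A polynomial along a line with an offset**: values and derivative near the window. -/
theorem lin_der (K : ℕ) : ∃ C : ℝ, 1 ≤ C ∧ ∀ (Q : PN) (i w : ℕ) (u d off : ℕ → ℝ) (T A : ℝ),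
    Q.vars ⊆ range i → Q.totalDegree ≤ K →
    (∀ τ ∈ Set.Icc (0 : ℝ) 1, |eval (fun j => u j + d j * ((T + τ) / 2 ^ w) + off j) Q -
      (u i + d i * ((T + τ) / 2 ^ w))| ≤ A) → ∀ τ : ℝ, |τ| ≤ 2 →
    |eval (fun j => u j + d j * ((T + τ) / 2 ^ w) + off j) Q -
      (u i + d i * ((T + τ) / 2 ^ w))| ≤ C * A ∧
    |(∑ j ∈ range i, d j * eval (fun j => u j + d j * ((T + τ) / 2 ^ w) + off j) (pderiv j Q)) -
      d i| ≤ C * A * 2 ^ w := by
  obtain ⟨C, hC, hext⟩ := ext_int (K + 1)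
  refine ⟨C, hC, ?_⟩
  intro Q i w u d off T A hv hQ hA τ hτ
  obtain ⟨γ, hγ⟩ : ∃ γ : ℕ → Polynomial ℝ, γ = fun j => Polynomial.C (u j + off j) +
      Polynomial.C (d j) * (Polynomial.C (T / 2 ^ w) + Polynomial.C (1 / 2 ^ w) * Polynomial.X) :=
    ⟨_, rfl⟩
  obtain ⟨q, hq⟩ : ∃ q : Polynomial ℝ, q = aeval γ Q - (Polynomial.C (u i) +
      Polynomial.C (d i) * (Polynomial.C (T / 2 ^ w) + Polynomial.C (1 / 2 ^ w) *
        Polynomial.X)) := ⟨_, rfl⟩
  have h1d : (Polynomial.C (T / 2 ^ w) + Polynomial.C (1 / 2 ^ w) *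
      Polynomial.X : Polynomial ℝ).natDegree ≤ 1 := by
    refine (Polynomial.natDegree_add_le _ _).trans (max_le ?_ ?_)
    · rw [Polynomial.natDegree_C]
      exact Nat.zero_le _
    · exact (Polynomial.natDegree_C_mul_le _ _).trans Polynomial.natDegree_X_le
  have h2d : ∀ x y : ℝ, (Polynomial.C x + Polynomial.C y * (Polynomial.C (T / 2 ^ w) +
      Polynomial.C (1 / 2 ^ w) * Polynomial.X) : Polynomial ℝ).natDegree ≤ 1 := by
    intro x y
    refine (Polynomial.natDegree_add_le _ _).trans (max_le ?_ ?_)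
    · rw [Polynomial.natDegree_C]
      exact Nat.zero_le _
    · exact (Polynomial.natDegree_C_mul_le _ _).trans h1d
  have hqd : q.natDegree ≤ K + 1 := by
    rw [hq]
    refine (Polynomial.natDegree_sub_le _ _).trans (max_le ?_ ((h2d _ _).trans (by omega)))
    refine (Pool.KBX.natDegree_aeval_le _ _ (fun j => ?_) hQ).trans (by omega)
    rw [hγ]
    exact h2d _ _
  have hge : ∀ t j, (γ j).eval t = u j + d j * ((T + t) / 2 ^ w) + off j := by
    intro t j
    rw [hγ]
    simp only [Polynomial.eval_add, Polynomial.eval_mul, Polynomial.eval_C, Polynomial.eval_X]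
    ring
  have hqe : ∀ t, q.eval t = eval (fun j => u j + d j * ((T + t) / 2 ^ w) + off j) Q -
      (u i + d i * ((T + t) / 2 ^ w)) := by
    intro t
    rw [hq, Polynomial.eval_sub, Pool.KBX.eval_aeval_poly]
    congr 1
    · congr 2
      funext j
      exact hge t j
    · simp only [Polynomial.eval_add, Polynomial.eval_mul, Polynomial.eval_C, Polynomial.eval_X]
      ring
  have h1 := hext q A hqd (fun t ht => by
    rw [hqe]
    exact hA t ht) τ hτ
  refine ⟨by rw [← hqe]; exact h1.1, ?_⟩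
  -- the derivative
  have hti : HasDerivAt (fun t : ℝ => (T + t) / 2 ^ w) (1 / 2 ^ w) τ :=
    ((hasDerivAt_id τ).const_add T).div_const _
  have hy : ∀ j, HasDerivAt (fun t => (fun (t : ℝ) (j : ℕ) => u j + d j * ((T + t) / 2 ^ w) +
      off j) t j) (d j * (1 / 2 ^ w)) τ := by
    intro j
    exact ((hti.const_mul (d j)).const_add (u j)).add_const (off j)
  have h3 := curve_sum (x := fun (t : ℝ) (j : ℕ) => u j + d j * ((T + t) / 2 ^ w) + off j) hy hv
  have h4 : HasDerivAt (fun t : ℝ => u i + d i * ((T + t) / 2 ^ w)) (d i * (1 / 2 ^ w)) τ :=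
    (hti.const_mul (d i)).const_add (u i)
  have h5 := h3.sub h4
  have h6 := q.hasDerivAt τ
  have h7 : (fun t => q.eval t) = (fun t => eval (fun j => u j + d j * ((T + t) / 2 ^ w) + off j)
      Q) - (fun t : ℝ => u i + d i * ((T + t) / 2 ^ w)) := by
    funext t
    exact hqe t
  rw [h7] at h6
  have h8 := h5.unique h6
  have h9 := h1.2
  rw [← h8] at h9
  have h2w : (0 : ℝ) < 2 ^ w := by positivity
  have h10 : (∑ j ∈ range i, d j * (1 / 2 ^ w) * eval (fun j => u j + d j * ((T + τ) / 2 ^ w) +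
      off j) (pderiv j Q)) - d i * (1 / 2 ^ w) = ((∑ j ∈ range i, d j * eval (fun j => u j + d j *
        ((T + τ) / 2 ^ w) + off j) (pderiv j Q)) - d i) / 2 ^ w := by
    rw [sub_div, Finset.sum_div]
    congr 1
    · refine Finset.sum_congr rfl fun j _ => ?_
      ring
    · ring
  rw [h10, abs_div, abs_of_pos h2w, div_le_iff₀ h2w] at h9
  exact h9

/-- **The closed polynomials near a line**: the polynomials `Φ j`, `1 ≤ j ≤ n`, are near the
coordinates of the line in the window. -/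
theorem ball_core (n K : ℕ) (hn : 1 ≤ n) : ∃ Z : ℝ, 1 ≤ Z ∧ ∀ (Φ : ℕ → PN) (g : ℕ → ℕ) (w : ℕ)
    (u d : ℕ → ℝ) (T ρ₀ β : ℝ) (H : ℕ → ℝ), TriN Φ → (∀ j, (Φ j).totalDegree ≤ K) →
    u 0 = 0 → d 0 = 1 → (∀ j, |d j| ≤ 1) → g 0 = w → Φ 0 = C (T / 2 ^ w) → 1 ≤ ρ₀ → 0 ≤ β →
    (∀ j, 0 ≤ H j) →
    (∀ j, 1 ≤ j → j ≤ n → ∀ τ ∈ Set.Icc (0 : ℝ) 1,
      |eval (fun l => u l + d l * ((T + τ) / 2 ^ w)) (Φ j) - (u j + d j * ((T + τ) / 2 ^ w))| ≤
        ρ₀ / 2 ^ g j) →
    (∀ j ≤ n, ∀ b : ℕ → ℝ, Bxr (2 * (Z * ρ₀)) g Φ j b → ∀ l, 1 ≤ l → l < j →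
      |eval b (pderiv l (Φ j))| ≤ H j) →
    (∀ j ≤ n, 1 ≤ j → β + j * (β * H j) ≤ Z * ρ₀ / 2 ^ g j) → ∀ τ : ℝ, |τ| ≤ 2 →
    |(∑ j ∈ range n, d j * eval (fun l => u l + d l * ((T + τ) / 2 ^ w)) (pderiv j (Φ n))) -
      d n| ≤ Z * ρ₀ / 2 ^ g n * 2 ^ w ∧
    ∀ b : ℕ → ℝ, b 0 = (T + τ) / 2 ^ w → (∀ j, 1 ≤ j → j < n →
      |b j - (u j + d j * ((T + τ) / 2 ^ w))| ≤ β) →
      Bxr (2 * (Z * ρ₀)) g Φ n b ∧
      |eval b (pderiv 0 (Φ n))| ≤ 1 + n * H n + Z * (2 * (Z * ρ₀)) / 2 ^ g n * 2 ^ w := by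
  obtain ⟨Y, hY, hlin⟩ := lin_der K
  obtain ⟨Z, hZ⟩ : ∃ Z : ℝ, Z = 2 * Y := ⟨_, rfl⟩
  refine ⟨Z, by linarith, ?_⟩
  intro Φ g w u d T ρ₀ β H hΦ hK hu0 hd0 hd hg0 hΦ0 hρ₀ hβ hH0 hline hgr hH τ hτ
  obtain ⟨R, hR⟩ : ∃ R : ℝ, R = Z * ρ₀ := ⟨_, rfl⟩
  rw [← hR] at hgr hH ⊢
  have hYρ : Y * ρ₀ ≤ R := by
    rw [hR, hZ]
    nlinarith
  have hR2 : 2 ≤ R := by
    rw [hR, hZ]
    nlinarith
  have hR0 : 0 ≤ R := by linarith
  obtain ⟨y, hy⟩ : ∃ y : ℝ → ℕ → ℝ, y = fun s l => u l + d l * ((T + s) / 2 ^ w) := ⟨_, rfl⟩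
  have hyv : ∀ s l, y s l = u l + d l * ((T + s) / 2 ^ w) := fun s l => by rw [hy]
  have hyf : ∀ s, (fun l => u l + d l * ((T + s) / 2 ^ w)) = y s := fun s => by rw [hy]
  have hy0 : ∀ s, y s 0 = (T + s) / 2 ^ w := fun s => by
    rw [hyv, hu0, hd0]
    ring
  -- the line, values and derivatives
  have hl0 : ∀ j, 1 ≤ j → j ≤ n → ∀ s : ℝ, |s| ≤ 2 →
      |eval (y s) (Φ j) - y s j| ≤ Y * (ρ₀ / 2 ^ g j) ∧
      |(∑ l ∈ range j, d l * eval (y s) (pderiv l (Φ j))) - d j| ≤
        Y * (ρ₀ / 2 ^ g j) * 2 ^ w := by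
    intro j hj1 hj s hs
    have h1 := hlin (Φ j) j w u d (fun _ => 0) T (ρ₀ / 2 ^ g j) (hΦ j) (hK j) (by
      intro t ht
      simp only [add_zero]
      exact hline j hj1 hj t ht) s hs
    simp only [add_zero] at h1
    rw [hyf, ← hyv] at h1
    exact h1
  have hbx : ∀ s : ℝ, |s| ≤ 2 → Bxr R g Φ (n + 1) (y s) := by
    intro s hs j hj
    rcases Nat.eq_zero_or_pos j with rfl | h1
    · rw [hy0, hΦ0, eval_C, hg0]
      have e : (T + s) / 2 ^ w - T / 2 ^ w = s / 2 ^ w := by ring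
      rw [e, abs_div, abs_of_pos (by positivity : (0 : ℝ) < 2 ^ w)]
      exact div_le_div_of_nonneg_right (by linarith) (by positivity)
    · rw [abs_sub_comm]
      refine (hl0 j h1 (by omega) s hs).1.trans ?_
      rw [← mul_div_assoc]
      exact div_le_div_of_nonneg_right hYρ (by positivity)
  have hYR : Y * (ρ₀ / 2 ^ g n) ≤ R / 2 ^ g n := by
    rw [← mul_div_assoc]
    exact div_le_div_of_nonneg_right hYρ (by positivity)
  refine ⟨?_, fun b hb0 hb => ?_⟩
  · rw [hyf]
    refine (hl0 n hn le_rfl τ hτ).2.trans ?_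
    exact mul_le_mul_of_nonneg_right hYR (by positivity)
  -- the offset
  obtain ⟨off, hoff⟩ : ∃ off : ℕ → ℝ, off = fun j => if j < n then b j - y τ j else 0 := ⟨_, rfl⟩
  have ho0 : off 0 = 0 := by
    rw [hoff]
    simp only [show (0 : ℕ) < n from hn, if_true]
    rw [hb0, hy0, sub_self]
  have hob : ∀ j, |off j| ≤ β := by
    intro j
    rcases Nat.eq_zero_or_pos j with rfl | h1
    · rw [ho0, abs_zero]
      exact hβ
    · rw [hoff]
      by_cases h2 : j < n
      · simp only [h2, if_true]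
        rw [hyv]
        exact hb j h1 h2
      · simp only [h2, if_false, abs_zero]
        exact hβ
  have hpb : ∀ s : ℝ, |s| ≤ 2 → ∀ b : ℕ → ℝ, b 0 = y s 0 →
      (∀ j, 1 ≤ j → j < n → |b j - y s j| ≤ β) → Bxr (2 * R) g Φ n b := by
    intro s hs b h0 h1
    exact box_pert hΦ hR0 hβ hH0 (fun j hj b hb l h3 h4 => hgr j hj.le b hb l h3 h4)
      (fun j hj h3 => hH j hj.le h3) ((hbx s hs).mono le_rfl (by omega)) b h0 h1
  have hBb : Bxr (2 * R) g Φ n b := by
    refine hpb τ hτ b (by rw [hb0, hy0]) fun j h1 h2 => ?_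
    rw [hyv]
    exact hb j h1 h2
  refine ⟨hBb, ?_⟩
  have hoffb : ∀ s : ℝ, |s| ≤ 2 → |eval (fun j => y s j + off j) (Φ n) - y s n| ≤
      2 * R / 2 ^ g n := by
    intro s hs
    have h1 : |eval (fun j => y s j + off j) (Φ n) - eval (y s) (Φ n)| ≤ n * (β * H n) := by
      refine seg_le (hΦ n) ?_ ?_ (hH0 n) hβ ?_
      · show y s 0 + off 0 = y s 0
        rw [ho0, add_zero]
      · intro j _ _
        show |y s j + off j - y s j| ≤ β
        rw [add_sub_cancel_left]
        exact hob j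
      · intro t ht l h3 h4
        refine hgr n le_rfl _ (hpb s hs _ ?_ ?_) l h3 h4
        · show y s 0 + t * (y s 0 + off 0 - y s 0) = y s 0
          rw [ho0]
          ring
        · intro j _ _
          show |y s j + t * (y s j + off j - y s j) - y s j| ≤ β
          have e : y s j + t * (y s j + off j - y s j) - y s j = t * off j := by ring
          rw [e, abs_mul, abs_of_nonneg ht.1]
          calc t * |off j| ≤ 1 * β := mul_le_mul ht.2 (hob j) (abs_nonneg _) zero_le_one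
            _ = β := one_mul _
    have h2 := (hl0 n hn le_rfl s hs).1
    have h3 := hH n le_rfl hn
    have e : 2 * R / 2 ^ g n = R / 2 ^ g n + R / 2 ^ g n := by ring
    rw [e]
    rw [abs_le] at h1 h2 ⊢
    constructor <;> linarith [h1.1, h1.2, h2.1, h2.2]
  have h5 := hlin (Φ n) n w u d off T (2 * R / 2 ^ g n) (hΦ n) (hK n) (by
    intro t ht
    have h6 := hoffb t (by
      rw [abs_of_nonneg ht.1]
      linarith [ht.2])
    rw [← hyv]
    have e : (fun j => u j + d j * ((T + t) / 2 ^ w) + off j) = fun j => y t j + off j := by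
      funext j
      rw [hyv]
    rw [e]
    exact h6) τ hτ
  have h6 := h5.2
  -- at the point
  have h7 : ∀ j ∈ range n, d j * eval (fun j => u j + d j * ((T + τ) / 2 ^ w) + off j)
      (pderiv j (Φ n)) = d j * eval b (pderiv j (Φ n)) := by
    intro j _
    congr 1
    refine Pool.SYS35.eval_congr ((NEAR.vars_pd _ _).trans (hΦ n)) fun l hl => ?_
    show u l + d l * ((T + τ) / 2 ^ w) + off l = b l
    rw [← hyv, hoff]
    simp only [hl, if_true]
    ring
  rw [Finset.sum_congr rfl h7] at h6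
  obtain ⟨n', rfl⟩ : ∃ n', n = n' + 1 := ⟨n - 1, by omega⟩
  rw [Finset.sum_range_succ', hd0, one_mul] at h6
  have h8 : |∑ j ∈ range n', d (j + 1) * eval b (pderiv (j + 1) (Φ (n' + 1)))| ≤
      n' * H (n' + 1) := by
    refine (Finset.abs_sum_le_sum_abs _ _).trans ?_
    have h9 : ∀ j ∈ range n', |d (j + 1) * eval b (pderiv (j + 1) (Φ (n' + 1)))| ≤
        H (n' + 1) := by
      intro j hj
      rw [abs_mul]
      calc |d (j + 1)| * |eval b (pderiv (j + 1) (Φ (n' + 1)))| ≤ 1 * H (n' + 1) :=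
            mul_le_mul (hd _) (hgr (n' + 1) le_rfl b hBb (j + 1) (by omega)
              (by have := mem_range.1 hj; omega)) (abs_nonneg _) zero_le_one
        _ = _ := one_mul _
    refine (Finset.sum_le_sum h9).trans ?_
    rw [Finset.sum_const, card_range, nsmul_eq_mul]
  have h9 := hd (n' + 1)
  have h10 := hH0 (n' + 1)
  have h11 : Y * (2 * R / 2 ^ g (n' + 1)) * 2 ^ w ≤ Z * (2 * R) / 2 ^ g (n' + 1) * 2 ^ w := by
    rw [← mul_div_assoc]
    refine mul_le_mul_of_nonneg_right (div_le_div_of_nonneg_right ?_ (by positivity))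
      (by positivity)
    rw [hZ]
    nlinarith
  push_cast
  rw [abs_le] at h6 h8 h9 ⊢
  constructor <;> linarith [h6.1, h6.2, h8.1, h8.2, h9.1, h9.2]

end Pool.EXT96
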